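import Mathlib

section

open Set Filter Topology Function
open scoped Manifold ContDiff

namespace Pool.Agent.MP_4d76c1_gt

abbrev E3 : Type := Fin 3 → ℝ
abbrev Z3 : Type := Fin 3 → ℤ

/-- lattice vector -/
def cv (k : Z3) : E3 := fun i => (k i : ℝ)

@[simp] lemma cv_apply (k : Z3) (i : Fin 3) : cv k i = (k i : ℝ) := rfl
lemma cv_add (k l : Z3) : cv (k + l) = cv k + cv l := by ext i; simp
lemma cv_sub (k l : Z3) : cv (k - l) = cv k - cv l := by ext i; simp
lemma cv_neg (k : Z3) : cv (-k) = -cv k := by ext i; simp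
@[simp] lemma cv_zero : cv 0 = 0 := by ext i; simp

lemma finite_cv_norm_le (R : ℝ) : {k : Z3 | ‖cv k‖ ≤ R}.Finite := by
  obtain ⟨N, hN⟩ := exists_nat_ge R
  refine (Set.finite_Icc (fun _ => -(N : ℤ)) (fun _ => (N : ℤ))).subset ?_
  intro k hk
  have h : ∀ i, |(k i : ℝ)| ≤ N := fun i => by
    have := norm_le_pi_norm (cv k) i
    simp only [cv_apply, Real.norm_eq_abs] at this
    exact this.trans (le_trans hk hN)
  constructor
  · intro i
    have := (abs_le.1 (h i)).1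
    show -(N : ℤ) ≤ k i
    exact_mod_cast this
  · intro i
    have := (abs_le.1 (h i)).2
    show k i ≤ (N : ℤ)
    exact_mod_cast this

lemma locallyFinite_translates {s : Z3 → Set E3} {R : ℝ}
    (hs : ∀ k, ∀ y ∈ s k, ‖y - cv k‖ ≤ R) : LocallyFinite s := by
  intro x
  refine ⟨Metric.ball x 1, Metric.ball_mem_nhds x one_pos, ?_⟩
  refine (finite_cv_norm_le (‖x‖ + 1 + R)).subset ?_
  rintro k ⟨y, hy, hyx⟩
  have h1 := hs k y hy
  have h2 : ‖y - x‖ < 1 := by simpa [dist_eq_norm] using hyx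
  have : cv k = x + (y - x) - (y - cv k) := by abel
  show ‖cv k‖ ≤ _
  rw [this]
  calc ‖x + (y - x) - (y - cv k)‖ ≤ ‖x + (y - x)‖ + ‖y - cv k‖ := norm_sub_le _ _
    _ ≤ ‖x‖ + ‖y - x‖ + ‖y - cv k‖ := by gcongr; exact norm_add_le _ _
    _ ≤ _ := by linarith

/-- floor of a point -/
noncomputable def fl (x : E3) : Z3 := fun i => ⌊x i⌋

lemma norm_sub_fl (x : E3) : ‖x - cv (fl x)‖ ≤ 1 := by
  refine (pi_norm_le_iff_of_nonneg zero_le_one).2 fun i => ?_
  simp only [Pi.sub_apply, cv_apply, fl, Real.norm_eq_abs]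
  have h1 := Int.floor_le (x i)
  have h2 := Int.lt_floor_add_one (x i)
  rw [abs_le]; constructor <;> linarith

lemma contDiff_finsum' {ι F : Type*} [NormedAddCommGroup F] [NormedSpace ℝ F]
    {f : ι → E3 → F} (hf : ∀ i, ContDiff ℝ ∞ (f i))
    (hl : LocallyFinite fun i => support (f i)) : ContDiff ℝ ∞ fun x => ∑ᶠ i, f i x := by
  rw [← contMDiff_iff_contDiff]
  exact contMDiff_finsum (fun i => (hf i).contMDiff) hl

lemma exists_periodic_partition : ∃ β : E3 → ℝ, ContDiff ℝ ∞ β ∧ (∀ x, 0 ≤ β x) ∧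
    (∀ x, β x ≠ 0 → ‖x‖ ≤ 2) ∧ ∀ x, ∑ᶠ k : Z3, β (x - cv k) = 1 := by
  obtain ⟨φ, hs, hφ, hr⟩ :=
    (Metric.isOpen_ball (x := (0 : E3)) (ε := 2)).exists_contDiff_support_eq (n := ⊤)
  have h0 : ∀ x, 0 ≤ φ x := fun x => (hr (mem_range_self x)).1
  have hsupp : ∀ x, φ x ≠ 0 → ‖x‖ ≤ 2 := fun x hx => by
    have : x ∈ support φ := hx
    rw [hs] at this
    simpa using (mem_ball_zero_iff.1 this).le
  have hlf : LocallyFinite fun k : Z3 => support fun x => φ (x - cv k) :=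
    locallyFinite_translates (R := 2) fun k y hy => hsupp _ hy
  let Φ : E3 → ℝ := fun x => ∑ᶠ k : Z3, φ (x - cv k)
  have hΦ : ContDiff ℝ ∞ Φ :=
    contDiff_finsum' (fun k => hφ.comp (contDiff_id.sub contDiff_const)) hlf
  have hpos : ∀ x, 0 < Φ x := fun x => by
    have hfin : (support fun k : Z3 => φ (x - cv k)).Finite := hlf.point_finite x
    refine finsum_pos (fun k => h0 _) ⟨fl x, ?_⟩ hfin
    have : x - cv (fl x) ∈ support φ := by
      rw [hs, mem_ball_zero_iff]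
      exact (norm_sub_fl x).trans_lt (by norm_num)
    exact lt_of_le_of_ne (h0 _) (Ne.symm this)
  have hper : ∀ x (k : Z3), Φ (x - cv k) = Φ x := fun x k => by
    show ∑ᶠ l : Z3, φ (x - cv k - cv l) = ∑ᶠ l : Z3, φ (x - cv l)
    rw [← finsum_comp_equiv (Equiv.addLeft k) (f := fun l : Z3 => φ (x - cv l))]
    refine finsum_congr fun l => ?_
    simp only [Equiv.coe_addLeft, cv_add, sub_sub]
  refine ⟨fun x => φ x * (Φ x)⁻¹, hφ.mul (hΦ.inv fun x => (hpos x).ne'), fun x => ?_,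
    fun x hx => hsupp x (left_ne_zero_of_mul hx), fun x => ?_⟩
  · exact mul_nonneg (h0 x) (inv_nonneg.2 (hpos x).le)
  · simp only [hper]
    rw [← finsum_mul]
    exact mul_inv_cancel₀ (hpos x).ne'

lemma eventually_finsum_mem {ι F : Type*} [NormedAddCommGroup F] [NormedSpace ℝ F]
    {w : ι → E3 → ℝ} (hw0 : ∀ i x, 0 ≤ w i x) (hw1 : ∀ x, ∑ᶠ i, w i x = 1)
    (hlf : LocallyFinite fun i => support (w i)) {h : ι → E3 → F} {y : E3} {l : Filter E3}
    (hl : l ≤ 𝓝 y) {C : E3 → Set F} (hC : ∀ z, Convex ℝ (C z))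
    (hh : ∀ i, y ∈ tsupport (w i) → ∀ᶠ z in l, h i z ∈ C z) :
    ∀ᶠ z in l, ∑ᶠ i, w i z • h i z ∈ C z := by
  have hlf' : LocallyFinite fun i => tsupport (w i) := hlf.closure
  have hfin : {i | y ∈ tsupport (w i)}.Finite := hlf'.point_finite y
  have h1 : ∀ᶠ z in l, ∀ i ∈ {i | y ∈ tsupport (w i)}, h i z ∈ C z :=
    (eventually_all_finite hfin).2 fun i hi => hh i hi
  have h2 := (hlf'.eventually_subset (fun i => isClosed_tsupport _) y).filter_mono hl
  filter_upwards [h1, h2] with z hz1 hz2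
  refine (hC z).finsum_mem (fun i => hw0 i z) (hw1 z) fun i hi => hz1 i (hz2 ?_)
  exact subset_tsupport _ hi

/-- Periodic gluing of local smooth solutions of germwise convex conditions. -/
theorem periodic_glue {F I : Type*} [NormedAddCommGroup F] [NormedSpace ℝ F]
    (l : E3 → Filter E3) (hl : ∀ y, l y ≤ 𝓝 y)
    (hlk : ∀ y (k : Z3), Tendsto (fun z => z - cv k) (l y) (l (y - cv k)))
    (S : I → Set E3) (C : I → E3 → Set F) (hC : ∀ a z, Convex ℝ (C a z))
    (hinv : ∀ (k : Z3) a, ∃ a', (∀ y ∈ S a, y - cv k ∈ S a') ∧ ∀ z, C a' (z - cv k) ⊆ C a z)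
    (hloc : ∀ x, ∃ g : E3 → F, ∀ᶠ y in 𝓝 x, ContDiffAt ℝ ∞ g y ∧
      ∀ a, y ∈ S a → ∀ᶠ z in l y, g z ∈ C a z) :
    ∃ g : E3 → F, ContDiff ℝ ∞ g ∧ (∀ x (k : Z3), g (x + cv k) = g x) ∧
      ∀ a, ∀ y ∈ S a, ∀ᶠ z in l y, g z ∈ C a z := by
  choose g hg using hloc
  let V : E3 → Set E3 := fun x => interior {y | ContDiffAt ℝ ∞ (g x) y ∧
      ∀ a, y ∈ S a → ∀ᶠ z in l y, g x z ∈ C a z}
  obtain ⟨ρ, hρ⟩ := SmoothPartitionOfUnity.exists_isSubordinate 𝓘(ℝ, E3) isClosed_univ V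
    (fun x => isOpen_interior) (fun x _ => mem_iUnion.2 ⟨x, mem_interior_iff_mem_nhds.2 (hg x)⟩)
  let g0 : E3 → F := fun z => ∑ᶠ x, ρ x z • g x z
  have hg0 : ContDiff ℝ ∞ g0 := by
    rw [← contMDiff_iff_contDiff]
    refine ρ.contMDiff_finsum_smul fun x y hy => ?_
    exact (interior_subset (hρ x hy)).1.contMDiffAt
  have hg0' : ∀ a, ∀ y ∈ S a, ∀ᶠ z in l y, g0 z ∈ C a z := fun a y hy =>
    eventually_finsum_mem (w := fun x z => ρ x z) (fun x z => ρ.nonneg x z)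
      (fun z => ρ.sum_eq_one (mem_univ z)) ρ.locallyFinite (hl y) (hC a)
      fun x hx => (interior_subset (hρ x hx)).2 a hy
  obtain ⟨β, hβ, hβ0, hβs, hβ1⟩ := exists_periodic_partition
  have hlf : LocallyFinite fun k : Z3 => support fun x => β (x - cv k) :=
    locallyFinite_translates (R := 2) fun k y hy => hβs _ hy
  refine ⟨fun z => ∑ᶠ k : Z3, β (z - cv k) • g0 (z - cv k), ?_, ?_, ?_⟩
  · refine contDiff_finsum' (fun k => ?_) (hlf.subset fun k => ?_)
    · exact (hβ.comp (contDiff_id.sub contDiff_const)).smul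
        (hg0.comp (contDiff_id.sub contDiff_const))
    · exact support_smul_subset_left _ _
  · intro x k
    show ∑ᶠ l : Z3, β (x + cv k - cv l) • g0 (x + cv k - cv l)
      = ∑ᶠ l : Z3, β (x - cv l) • g0 (x - cv l)
    rw [← finsum_comp_equiv (Equiv.addLeft k)
      (f := fun l : Z3 => β (x + cv k - cv l) • g0 (x + cv k - cv l))]
    refine finsum_congr fun l => ?_
    have : x + cv k - (cv k + cv l) = x - cv l := by abel
    simp only [Equiv.coe_addLeft, cv_add, this]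
  · intro a y hy
    refine eventually_finsum_mem (w := fun k z => β (z - cv k)) (fun k z => hβ0 _) hβ1 hlf (hl y)
      (hC a) fun k _ => ?_
    obtain ⟨a', ha1, ha2⟩ := hinv k a
    filter_upwards [(hlk y k).eventually (hg0' a' _ (ha1 y hy))] with z hz
    exact ha2 z hz

end Pool.Agent.MP_4d76c1_gt

end

section

open Set Filter Topology Function

namespace Pool.Agent.MP_4d76c1_gt

/-- sign attached to a boolean -/
def sz : Bool → ℤ
  | true => 1
  | false => -1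

abbrev Sgn : Type := Fin 3 → Bool

/-- integer multiple of a coordinate vector -/
def ev (i : Fin 3) (n : ℤ) : Z3 := Pi.single i n

/-- base point of the line of type `i` -/
noncomputable def bp (i : Fin 3) : E3 := Pi.single (i + 2) (1 / 2)

/-- the linear form with coefficients the signs `l` -/
def dot (l : Sgn) (x : E3) : ℝ := ∑ r, (sz (l r) : ℝ) * x r

lemma dot_add (l : Sgn) (x y : E3) : dot l (x + y) = dot l x + dot l y := by
  simp [dot, mul_add, Finset.sum_add_distrib]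

lemma dot_sub (l : Sgn) (x y : E3) : dot l (x - y) = dot l x - dot l y := by
  simp [dot, mul_sub, Finset.sum_sub_distrib]

lemma dot_ev (l : Sgn) (i : Fin 3) (n : ℤ) : dot l (cv (ev i n)) = (sz (l i) : ℝ) * n := by
  unfold dot
  rw [Finset.sum_eq_single i]
  · simp [ev]
  · intro b _ hb; simp [ev, hb]
  · simp

lemma ev_add (i : Fin 3) (m n : ℤ) : ev i (m + n) = ev i m + ev i n := by
  simp [ev, Pi.single_add]

@[simp] lemma ev_zero (i : Fin 3) : ev i 0 = 0 := by simp [ev]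

lemma sz_mul_self (b : Bool) : sz b * sz b = 1 := by cases b <;> rfl

lemma norm_bp_le (i : Fin 3) : ‖bp i‖ ≤ 1 / 2 := by
  rw [bp, Pi.norm_single]; norm_num

/-- isometric lines -/
def IsLine (D : E3 → E3 → ℝ) (c : ℝ → E3) : Prop := ∀ s t, D (c s) (c t) = |t - s|

/-- defect -/
def df (D : E3 → E3 → ℝ) (f : E3 → ℝ) (x y : E3) : ℝ := D x y - (f y - f x)

structure MetData (D : E3 → E3 → ℝ) (u : Sgn → E3 → ℝ) (m M : ℝ) {B : Type} (Γ : B → Set E3) :
    Prop where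
  symm : ∀ x y, D x y = D y x
  tri : ∀ x y z, D x z ≤ D x y + D y z
  mpos : 0 < m
  Mpos : 0 < M
  lower : ∀ x y, m * ‖y - x‖ ≤ D x y
  upper : ∀ x y, D x y ≤ M * ‖y - x‖
  per : ∀ x y k, D (x + cv k) (y + cv k) = D x y
  lip : ∀ l x y, u l y - u l x ≤ D x y
  uper : ∀ l x k, u l (x + cv k) = u l x + dot l (cv k)
  axis : ∀ i n, D (bp i) (bp i + cv (ev i n)) ≤ |(n : ℝ)|
  hom : ∀ l i j, i ≠ j → ∀ η > 0, ∃ τ τ' : ℤ,
    df D (u l) (bp i + cv (ev i τ)) (bp i + cv (ev j (sz (l j)) + ev i τ')) < η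
  het : ∀ l i j, i ≠ j → ∀ η > 0, ∃ τ τ' : ℤ,
    df D (u l) (bp i + cv (ev i τ)) (bp j + cv (ev j τ')) < η
  cal : ∀ l c, IsLine D c → (∀ s t, u l (c t) - u l (c s) = t - s) →
    ∃ b k, range c = (fun x => x + cv k) '' Γ b
  acc : ∀ b, ∃ i, ∀ η > 0, ∀ τ : ℤ, ∃ k, ∃ x ∈ Γ b, ∃ y ∈ Γ b,
    ‖x - (bp i + cv k)‖ < η ∧ ‖y - (bp i + cv (k + ev i τ))‖ < η

namespace MetData

variable {D : E3 → E3 → ℝ} {u : Sgn → E3 → ℝ} {m M : ℝ} {B : Type} {Γ : B → Set E3}
  (h : MetData D u m M Γ)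
include h

lemma df_nonneg (l : Sgn) (x y : E3) : 0 ≤ df D (u l) x y := by
  have := h.lip l x y; unfold df; linarith

lemma df_tri (l : Sgn) (x y z : E3) : df D (u l) x z ≤ df D (u l) x y + df D (u l) y z := by
  have := h.tri x y z; unfold df; linarith

lemma df_per (l : Sgn) (x y : E3) (k : Z3) :
    df D (u l) (x + cv k) (y + cv k) = df D (u l) x y := by
  unfold df; rw [h.per, h.uper, h.uper]; ring

lemma df_le (l : Sgn) (x y : E3) : df D (u l) x y ≤ 2 * M * ‖y - x‖ := by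
  have h1 := h.lip l y x
  have h2 := h.upper x y
  rw [h.symm y x] at h1
  unfold df; linarith

lemma df_le' (l : Sgn) (x y : E3) : df D (u l) x y ≤ 2 * M * ‖x - y‖ := by
  rw [norm_sub_rev]; exact h.df_le l x y

lemma df_axis (l : Sgn) (i : Fin 3) (k : Z3) (n : ℤ) (hn : 0 ≤ sz (l i) * n) :
    df D (u l) (bp i + cv k) (bp i + cv (k + ev i n)) ≤ 0 := by
  have e : bp i + cv (k + ev i n) = bp i + cv (ev i n) + cv k := by rw [cv_add]; abel
  rw [e, h.df_per]
  have h1 := h.axis i n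
  unfold df
  rw [h.uper, dot_ev]
  have : |(n : ℝ)| = (sz (l i) : ℝ) * n := by
    have hn' : (0 : ℝ) ≤ (sz (l i) : ℝ) * n := by exact_mod_cast hn
    rcases hl : l i with _ | _ <;> simp only [hl, sz] at hn' ⊢ <;> push_cast at hn' ⊢
    · rw [abs_of_nonpos (by linarith)]; ring
    · rw [abs_of_nonneg (by linarith)]; ring
  linarith

lemma df_jump (l : Sgn) (x y : E3) (hx : ‖x‖ ≤ 1 / 2) (hy : ‖y‖ ≤ 1 / 2) (k : Z3) :
    df D (u l) (x + cv k) (y + cv k) ≤ 2 * M := by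
  rw [h.df_per]
  have h1 := h.df_le l x y
  have h2 : ‖y - x‖ ≤ 1 := (norm_sub_le _ _).trans (by linarith)
  have := h.Mpos
  nlinarith

lemma df_lattice (l : Sgn) (k k' : Z3) (hk : ∀ r, 0 ≤ sz (l r) * (k' r - k r)) :
    df D (u l) (cv k) (cv k') ≤ 8 * M := by
  set k1 := k + ev 0 (k' 0 - k 0) with hk1
  set k2 := k1 + ev 1 (k' 1 - k 1) with hk2
  have hk3 : k' = k2 + ev 2 (k' 2 - k 2) := by
    ext r; fin_cases r <;> simp [hk2, hk1, ev]
  have z : ‖(0 : E3)‖ ≤ 1 / 2 := by simp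
  have a0 := h.df_jump l 0 (bp 0) z (norm_bp_le _) k
  have a1 := h.df_axis l 0 k _ (hk 0)
  have a2 := h.df_jump l (bp 0) (bp 1) (norm_bp_le _) (norm_bp_le _) k1
  have a3 := h.df_axis l 1 k1 _ (hk 1)
  have a4 := h.df_jump l (bp 1) (bp 2) (norm_bp_le _) (norm_bp_le _) k2
  have a5 := h.df_axis l 2 k2 _ (hk 2)
  have a6 := h.df_jump l (bp 2) 0 (norm_bp_le _) z k'
  rw [← hk3] at a5
  rw [← hk2] at a3
  rw [← hk1] at a1
  simp only [zero_add] at a0 a6
  have t1 := h.df_tri l (cv k) (bp 0 + cv k) (cv k')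
  have t2 := h.df_tri l (bp 0 + cv k) (bp 0 + cv k1) (cv k')
  have t3 := h.df_tri l (bp 0 + cv k1) (bp 1 + cv k1) (cv k')
  have t4 := h.df_tri l (bp 1 + cv k1) (bp 1 + cv k2) (cv k')
  have t5 := h.df_tri l (bp 1 + cv k2) (bp 2 + cv k2) (cv k')
  have t6 := h.df_tri l (bp 2 + cv k2) (bp 2 + cv k') (cv k')
  linarith

end MetData

/-- zero cost relation between two lines -/
def ZC (D : E3 → E3 → ℝ) (f : E3 → ℝ) (i : Fin 3) (k : Z3) (j : Fin 3) (k' : Z3) : Prop :=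
  ∀ η > 0, ∃ τ τ' : ℤ, df D f (bp i + cv (k + ev i τ)) (bp j + cv (k' + ev j τ')) < η

namespace MetData

variable {D : E3 → E3 → ℝ} {u : Sgn → E3 → ℝ} {m M : ℝ} {B : Type} {Γ : B → Set E3}
  (h : MetData D u m M Γ)
include h

lemma zc_translate {l : Sgn} {i j : Fin 3} {k k' : Z3} (hz : ZC D (u l) i k j k') (w : Z3) :
    ZC D (u l) i (k + w) j (k' + w) := by
  intro η hη
  obtain ⟨τ, τ', hτ⟩ := hz η hη
  refine ⟨τ, τ', ?_⟩
  rw [← h.df_per l _ _ w] at hτ
  convert hτ using 2 <;> simp only [cv_add] <;> abel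

omit h in
lemma zc_shift {l : Sgn} {i j : Fin 3} {k k' : Z3} (hz : ZC D (u l) i k j k') (a b : ℤ) :
    ZC D (u l) i (k + ev i a) j (k' + ev j b) := by
  intro η hη
  obtain ⟨τ, τ', hτ⟩ := hz η hη
  refine ⟨τ - a, τ' - b, ?_⟩
  rwa [add_assoc, add_assoc, ← ev_add, ← ev_add, add_sub_cancel, add_sub_cancel]

lemma zc_refl (l : Sgn) (i : Fin 3) (k : Z3) : ZC D (u l) i k i k := by
  intro η hη
  refine ⟨0, 0, lt_of_le_of_lt (h.df_le l _ _) ?_⟩
  simpa using hη

lemma zc_trans {l : Sgn} {i j : Fin 3} {k k' k'' : Z3} (h1 : ZC D (u l) i k i k')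
    (h2 : ZC D (u l) i k' j k'') : ZC D (u l) i k j k'' := by
  intro η hη
  obtain ⟨a, a', ha⟩ := h1 (η / 2) (by linarith)
  obtain ⟨b, b', hb⟩ := h2 (η / 2) (by linarith)
  rw [← h.df_per l _ _ (ev i (b - a'))] at ha
  refine ⟨a + (b - a'), b', ?_⟩
  have e1 : bp i + cv (k + ev i a) + cv (ev i (b - a')) = bp i + cv (k + ev i (a + (b - a'))) := by
    simp only [cv_add, ev_add]; abel
  have e2 : bp i + cv (k' + ev i a') + cv (ev i (b - a')) = bp i + cv (k' + ev i b) := by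
    have : ev i b = ev i a' + ev i (b - a') := by rw [← ev_add]; congr 1; ring
    rw [this]; simp only [cv_add]; abel
  rw [e1, e2] at ha
  have := h.df_tri l (bp i + cv (k + ev i (a + (b - a')))) (bp i + cv (k' + ev i b))
    (bp j + cv (k'' + ev j b'))
  linarith

lemma zc_hom (l : Sgn) {i j : Fin 3} (hij : i ≠ j) (k : Z3) (n : ℤ) (hn : 0 ≤ sz (l j) * n) :
    ZC D (u l) i k i (k + ev j n) := by
  have key : ∀ N : ℕ, ZC D (u l) i k i (k + ev j (sz (l j) * N)) := by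
    intro N
    induction N with
    | zero => simpa using h.zc_refl l i k
    | succ N ih =>
      refine h.zc_trans ih ?_
      have h0 : ZC D (u l) i 0 i (ev j (sz (l j))) := by
        intro η hη
        obtain ⟨τ, τ', hτ⟩ := h.hom l i j hij η hη
        exact ⟨τ, τ', by simpa using hτ⟩
      have := h.zc_translate h0 (k + ev j (sz (l j) * N))
      rw [zero_add] at this
      convert this using 1
      push_cast
      rw [mul_add, mul_one, ev_add]; abel
  obtain ⟨N, hN⟩ := Int.eq_ofNat_of_zero_le hn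
  have : n = sz (l j) * N := by rw [← hN, ← mul_assoc, sz_mul_self, one_mul]
  rw [this]; exact key N

lemma zc_all (l : Sgn) (i j : Fin 3) (k k' : Z3) (hk : ∀ r, 0 ≤ sz (l r) * (k' r - k r)) :
    ZC D (u l) i k j k' := by
  have het0 : ∀ i j, i ≠ j → ZC D (u l) i 0 j 0 := fun i j hij η hη => by
    obtain ⟨τ, τ', hτ⟩ := h.het l i j hij η hη
    exact ⟨τ, τ', by simpa using hτ⟩
  rcases eq_or_ne i j with rfl | hij
  · have h1 := h.zc_hom l (i := i) (j := i + 1) (by fin_cases i <;> decide) k _ (hk (i + 1))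
    have h2 := h.zc_hom l (i := i) (j := i + 2) (by fin_cases i <;> decide)
      (k + ev (i + 1) (k' (i + 1) - k (i + 1))) _ (hk (i + 2))
    have h3 := zc_shift (h.zc_trans h1 h2) 0 (k' i - k i)
    convert h3 using 1
    · simp
    · ext r; fin_cases i <;> fin_cases r <;> simp [ev]
  · obtain ⟨t, hti, htj⟩ : ∃ t : Fin 3, i ≠ t ∧ j ≠ t := by
      revert i j; decide
    have h1 := h.zc_hom l hti k _ (hk t)
    have h2 := h.zc_translate (het0 i j hij) (k + ev t (k' t - k t) + ev i (k' i - k i))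
    have h3 := zc_shift h2 (k i - k' i) (k' j - k j)
    refine h.zc_trans h1 ?_
    convert h3 using 1
    · rw [zero_add, add_assoc (k + _), ← ev_add]; simp
    · ext r; fin_cases i <;> fin_cases j <;> fin_cases t <;> fin_cases r <;> simp_all [ev]

lemma line_cont {c : ℝ → E3} (hc : IsLine D c) (s t : ℝ) : ‖c t - c s‖ ≤ |t - s| / m := by
  rw [le_div_iff₀ h.mpos, ← hc s t, mul_comm]; exact h.lower _ _

omit h in
lemma df_line {c : ℝ → E3} (hc : IsLine D c) (l : Sgn) {s t : ℝ} (hst : s ≤ t) :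
    df D (u l) (c s) (c t) = (t - u l (c t)) - (s - u l (c s)) := by
  unfold df; rw [hc, abs_of_nonneg (sub_nonneg.2 hst)]; ring

lemma phi_mono {c : ℝ → E3} (hc : IsLine D c) (l : Sgn) :
    Monotone fun t => t - u l (c t) := fun s t hst => by
  have := h.df_nonneg l (c s) (c t)
  rw [df_line hc l hst] at this
  show s - u l (c s) ≤ t - u l (c t)
  linarith

lemma fin_defect {c : ℝ → E3} (hc : IsLine D c) (a b : ℕ → ℝ) (k k' : ℕ → Z3)
    (ha : ∀ n : ℕ, a n ≤ -n) (hb : ∀ n : ℕ, (n : ℝ) ≤ b n)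
    (hk : ∀ n, ‖c (a n) - cv (k n)‖ ≤ 2) (hk' : ∀ n, ‖c (b n) - cv (k' n)‖ ≤ 2) :
    ∃ l : Sgn, (∃ᶠ n in atTop, ∀ r, 0 ≤ sz (l r) * (k' n r - k n r)) ∧
      ∀ s t, (t - u l (c t)) - (s - u l (c s)) ≤ 16 * M := by
  have h1 : ∃ l : Sgn, ∃ᶠ n in atTop, ∀ r, 0 ≤ sz (l r) * (k' n r - k n r) := by
    by_contra hcon
    simp only [not_exists, not_frequently] at hcon
    obtain ⟨n, hn⟩ := (eventually_all.2 hcon).exists
    refine hn (fun r => decide (0 ≤ k' n r - k n r)) fun r => ?_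
    by_cases h0 : 0 ≤ k' n r - k n r
    · simp only [h0, decide_true, sz]; linarith
    · simp only [h0, decide_false, sz]; linarith
  obtain ⟨l, hl⟩ := h1
  refine ⟨l, hl, fun s t => ?_⟩
  obtain ⟨N, hN⟩ := exists_nat_ge (max |s| |t|)
  obtain ⟨n, hn, hnN⟩ := (hl.and_eventually (eventually_ge_atTop N)).exists
  have hnN' : (N : ℝ) ≤ n := by exact_mod_cast hnN
  have hs : a n ≤ s := by
    have := neg_abs_le s; have := le_max_left |s| |t|; have := ha n; linarith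
  have ht : t ≤ b n := by
    have := le_abs_self t; have := le_max_right |s| |t|; have := hb n; linarith
  have hab : a n ≤ b n := by
    have := ha n; have := hb n; have : (0 : ℝ) ≤ n := n.cast_nonneg; linarith
  have m1 := h.phi_mono hc l hs
  have m2 := h.phi_mono hc l ht
  have e := df_line (u := u) hc l hab
  have t1 := h.df_tri l (c (a n)) (cv (k n)) (c (b n))
  have t2 := h.df_tri l (cv (k n)) (cv (k' n)) (c (b n))
  have b1 := h.df_le' l (c (a n)) (cv (k n))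
  have b2 := h.df_lattice l _ _ hn
  have b3 := h.df_le l (cv (k' n)) (c (b n))
  have := h.Mpos
  have c1 := mul_le_mul_of_nonneg_left (hk n) (by linarith : 0 ≤ 2 * M)
  have c2 := mul_le_mul_of_nonneg_left (hk' n) (by linarith : 0 ≤ 2 * M)
  simp only at m1 m2
  linarith

end MetData

lemma tails_small {φ : ℝ → ℝ} (hφ : Monotone φ) {C : ℝ} (hC : ∀ s t, φ t - φ s ≤ C) {η : ℝ}
    (hη : 0 < η) : ∃ N : ℝ, (∀ s t, s ≤ -N → t ≤ -N → φ t - φ s < η) ∧
      ∀ s t, N ≤ s → N ≤ t → φ t - φ s < η := by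
  have hba : BddAbove (range φ) := ⟨C + φ 0, by rintro _ ⟨t, rfl⟩; linarith [hC 0 t]⟩
  have hbb : BddBelow (range φ) := ⟨φ 0 - C, by rintro _ ⟨t, rfl⟩; linarith [hC t 0]⟩
  obtain ⟨_, ⟨t1, rfl⟩, h1⟩ := exists_lt_of_lt_csSup (range_nonempty φ)
    (sub_lt_self (sSup (range φ)) hη)
  obtain ⟨_, ⟨t0, rfl⟩, h0⟩ := exists_lt_of_csInf_lt (range_nonempty φ)
    (lt_add_of_pos_right (sInf (range φ)) hη)
  refine ⟨max t1 (-t0), fun s t _ ht => ?_, fun s t hs _ => ?_⟩
  · have a1 : φ t ≤ φ t0 := hφ (by have := le_max_right t1 (-t0); linarith)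
    have a2 : sInf (range φ) ≤ φ s := csInf_le hbb (mem_range_self s)
    linarith
  · have a1 : φ t1 ≤ φ s := hφ (by have := le_max_left t1 (-t0); linarith)
    have a2 : φ t ≤ sSup (range φ) := le_csSup hba (mem_range_self t)
    linarith

namespace MetData

variable {D : E3 → E3 → ℝ} {u : Sgn → E3 → ℝ} {m M : ℝ} {B : Type} {Γ : B → Set E3}
  (h : MetData D u m M Γ)
include h

lemma D_cont : Continuous fun p : E3 × E3 => D p.1 p.2 := by
  have hL : ∀ p q : E3 × E3, D p.1 p.2 - D q.1 q.2 ≤ 2 * M * dist p q := fun p q => by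
    have t1 := h.tri p.1 q.1 p.2
    have t2 := h.tri q.1 q.2 p.2
    have b1 := h.upper p.1 q.1
    have b2 := h.upper q.2 p.2
    have c1 : ‖q.1 - p.1‖ ≤ dist p q := by
      rw [← dist_eq_norm, dist_comm, Prod.dist_eq]; exact le_max_left _ _
    have c2 : ‖p.2 - q.2‖ ≤ dist p q := by
      rw [← dist_eq_norm, Prod.dist_eq]; exact le_max_right _ _
    have := h.Mpos
    have d1 := mul_le_mul_of_nonneg_left c1 this.le
    have d2 := mul_le_mul_of_nonneg_left c2 this.le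
    linarith
  have := h.Mpos
  refine (LipschitzWith.of_dist_le' (K := 2 * M) fun p q => ?_).continuous
  rw [Real.dist_eq, abs_le]
  have := hL p q
  have := hL q p
  rw [dist_comm q p] at this
  constructor <;> linarith

lemma u_cont (l : Sgn) : Continuous (u l) := by
  refine (LipschitzWith.of_dist_le' (K := M) fun x y => ?_).continuous
  rw [Real.dist_eq, abs_le, dist_eq_norm]
  have a1 := h.lip l x y
  have a2 := h.lip l y x
  have a3 := h.upper y x
  rw [h.symm x y] at a1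
  constructor <;> linarith

lemma limit_line {c : ℝ → E3} (hc : IsLine D c) (l : Sgn) (a : ℕ → ℝ)
    (ha : ∀ s t, Tendsto (fun n => (a n + t - u l (c (a n + t))) - (a n + s - u l (c (a n + s))))
      atTop (𝓝 0)) :
    ∃ i, ∀ η > 0, ∀ τ : ℤ, ∃ s t : ℝ, ∃ᶠ n in atTop, ∃ k,
      ‖c (a n + s) - (bp i + cv k)‖ < η ∧ ‖c (a n + t) - (bp i + cv (k + ev i τ))‖ < η := by
  let U : Ultrafilter ℕ := hyperfilter ℕ
  have hU : (U : Filter ℕ) ≤ atTop := Nat.hyperfilter_le_atTop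
  let d : ℕ → ℝ → E3 := fun n t => c (a n + t) - cv (fl (c (a n)))
  have hex : ∀ t, ∃ x, Tendsto (fun n => d n t) U (𝓝 x) := fun t => by
    have hK : IsCompact (Metric.closedBall (0 : E3) (|t| / m + 1)) := isCompact_closedBall _ _
    have hmem : ∀ n, d n t ∈ Metric.closedBall (0 : E3) (|t| / m + 1) := fun n => by
      rw [mem_closedBall_zero_iff]
      have e : d n t = (c (a n + t) - c (a n)) + (c (a n) - cv (fl (c (a n)))) := by
        simp only [d]; abel
      have h1 := h.line_cont hc (a n) (a n + t)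
      rw [add_sub_cancel_left] at h1
      rw [e]
      exact (norm_add_le _ _).trans (add_le_add h1 (norm_sub_fl _))
    obtain ⟨x, -, hx⟩ := hK.ultrafilter_le_nhds (U.map fun n => d n t)
      (le_principal_iff.2 (mem_map.2 (Eventually.of_forall hmem)))
    exact ⟨x, hx⟩
  choose c' hc' using hex
  have hdD : ∀ n s t, D (d n s) (d n t) = |t - s| := fun n s t => by
    rw [← h.per _ _ (fl (c (a n)))]
    simp only [d, sub_add_cancel]
    rw [hc]; congr 1; ring
  have hline : IsLine D c' := fun s t => by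
    have h1 := (h.D_cont.tendsto (c' s, c' t)).comp ((hc' s).prodMk_nhds (hc' t))
    have h2 : ((fun p : E3 × E3 => D p.1 p.2) ∘ fun n => (d n s, d n t)) = fun _ => |t - s| := by
      ext n; exact hdD n s t
    rw [h2] at h1
    exact tendsto_nhds_unique h1 tendsto_const_nhds
  have hcal : ∀ s t, u l (c' t) - u l (c' s) = t - s := fun s t => by
    have h1 := (((h.u_cont l).tendsto _).comp (hc' t)).sub (((h.u_cont l).tendsto _).comp (hc' s))
    have h2 := ((ha s t).mono_left hU).const_sub (t - s)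
    rw [sub_zero] at h2
    refine tendsto_nhds_unique h1 (h2.congr fun n => ?_)
    have e1 := h.uper l (d n t) (fl (c (a n)))
    have e2 := h.uper l (d n s) (fl (c (a n)))
    simp only [d, sub_add_cancel] at e1 e2
    simp only [comp_apply, d]
    linarith
  obtain ⟨b, κ, hb⟩ := h.cal l c' hline hcal
  obtain ⟨i, hi⟩ := h.acc b
  refine ⟨i, fun η hη τ => ?_⟩
  obtain ⟨k, x, hx, y, hy, hxk, hyk⟩ := hi η hη τ
  obtain ⟨s, hs⟩ : x + cv κ ∈ range c' := hb ▸ mem_image_of_mem _ hx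
  obtain ⟨t, ht⟩ : y + cv κ ∈ range c' := hb ▸ mem_image_of_mem _ hy
  refine ⟨s, t, ?_⟩
  have e1 : ∀ᶠ n in (U : Filter ℕ), ‖d n s - (bp i + cv (k + κ))‖ < η := by
    refine (((hc' s).sub_const (bp i + cv (k + κ))).norm).eventually (gt_mem_nhds ?_)
    have e : x + cv κ - (bp i + cv (k + κ)) = x - (bp i + cv k) := by rw [cv_add]; abel
    rw [hs, e]; exact hxk
  have e2 : ∀ᶠ n in (U : Filter ℕ), ‖d n t - (bp i + cv (k + κ + ev i τ))‖ < η := by
    refine (((hc' t).sub_const (bp i + cv (k + κ + ev i τ))).norm).eventually (gt_mem_nhds ?_)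
    have e : y + cv κ - (bp i + cv (k + κ + ev i τ)) = y - (bp i + cv (k + ev i τ)) := by
      simp only [cv_add]; abel
    rw [ht, e]; exact hyk
  refine ((e1.and e2).frequently.filter_mono hU).mono fun n hn => ⟨k + κ + fl (c (a n)), ?_, ?_⟩
  · convert hn.1 using 2; simp only [d, cv_add]; abel
  · convert hn.2 using 2; simp only [d, cv_add]; abel

lemma ends {c : ℝ → E3} (hc : IsLine D c) :
    (∃ i, ∀ η > 0, ∀ (τ : ℤ) (N : ℝ), ∃ s t k, s ≤ -N ∧ t ≤ -N ∧
      ‖c s - (bp i + cv k)‖ < η ∧ ‖c t - (bp i + cv (k + ev i τ))‖ < η) ∧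
    (∃ i, ∀ η > 0, ∀ (τ : ℤ) (N : ℝ), ∃ s t k, N ≤ s ∧ N ≤ t ∧
      ‖c s - (bp i + cv k)‖ < η ∧ ‖c t - (bp i + cv (k + ev i τ))‖ < η) := by
  obtain ⟨l, -, hl⟩ := h.fin_defect hc (fun n => -n) (fun n => n) (fun n => fl (c (-n)))
    (fun n => fl (c n)) (fun _ => le_rfl) (fun _ => le_rfl)
    (fun n => (norm_sub_fl _).trans one_le_two) (fun n => (norm_sub_fl _).trans one_le_two)
  have hev : ∀ x : ℝ, ∀ᶠ n : ℕ in atTop, x ≤ n := fun x =>
    tendsto_natCast_atTop_atTop.eventually (eventually_ge_atTop x)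
  constructor
  · obtain ⟨i, hi⟩ := h.limit_line hc l (fun n => -n) (fun s t => by
      rw [Metric.tendsto_nhds]
      intro η hη
      obtain ⟨N, hN, -⟩ := tails_small (h.phi_mono hc l) hl hη
      filter_upwards [hev (N + s), hev (N + t)] with n h1 h2
      rw [Real.dist_eq, sub_zero, abs_lt]
      have a1 := hN (-n + s) (-n + t) (by linarith) (by linarith)
      have a2 := hN (-n + t) (-n + s) (by linarith) (by linarith)
      constructor <;> linarith)
    refine ⟨i, fun η hη τ N => ?_⟩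
    obtain ⟨s, t, hst⟩ := hi η hη τ
    obtain ⟨n, ⟨k, hk⟩, h1, h2⟩ := (hst.and_eventually ((hev (N + s)).and (hev (N + t)))).exists
    exact ⟨_, _, k, by linarith, by linarith, hk⟩
  · obtain ⟨i, hi⟩ := h.limit_line hc l (fun n => n) (fun s t => by
      rw [Metric.tendsto_nhds]
      intro η hη
      obtain ⟨N, -, hN⟩ := tails_small (h.phi_mono hc l) hl hη
      filter_upwards [hev (N - s), hev (N - t)] with n h1 h2
      rw [Real.dist_eq, sub_zero, abs_lt]
      have a1 := hN (n + s) (n + t) (by linarith) (by linarith)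
      have a2 := hN (n + t) (n + s) (by linarith) (by linarith)
      constructor <;> linarith)
    refine ⟨i, fun η hη τ N => ?_⟩
    obtain ⟨s, t, hst⟩ := hi η hη τ
    obtain ⟨n, ⟨k, hk⟩, h1, h2⟩ := (hst.and_eventually ((hev (N - s)).and (hev (N - t)))).exists
    exact ⟨_, _, k, by linarith, by linarith, hk⟩

lemma df_near (l : Sgn) {x y : E3} {η : ℝ} (hxy : ‖x - y‖ < η) :
    df D (u l) x y ≤ 2 * M * η ∧ df D (u l) y x ≤ 2 * M * η := by
  have := h.Mpos
  have h1 := mul_le_mul_of_nonneg_left hxy.le (by linarith : 0 ≤ 2 * M)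
  exact ⟨(h.df_le' l x y).trans h1, (h.df_le l y x).trans h1⟩

/-- every line is calibrated -/
lemma calibrated {c : ℝ → E3} (hc : IsLine D c) :
    ∃ l, ∀ s t, u l (c t) - u l (c s) = t - s := by
  obtain ⟨⟨i, hi⟩, ⟨j, hj⟩⟩ := h.ends hc
  have hpos : ∀ n : ℕ, (0 : ℝ) < 1 / (n + 1) := fun n => Nat.one_div_pos_of_nat
  choose a a' k ha _ hk _ using fun n : ℕ => hi (1 / (n + 1)) (hpos n) 0 n
  choose b b' k' hb _ hk' _ using fun n : ℕ => hj (1 / (n + 1)) (hpos n) 0 n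
  have hle : ∀ n : ℕ, (1 : ℝ) / (n + 1) ≤ 1 := fun n => by
    rw [div_le_one (by positivity)]; have : (0 : ℝ) ≤ n := n.cast_nonneg; linarith
  have hnear : ∀ (x : E3) (i : Fin 3) (k : Z3) (n : ℕ), ‖x - (bp i + cv k)‖ < 1 / (n + 1) →
      ‖x - cv k‖ ≤ 2 := fun x i k n hx => by
    have e : x - cv k = (x - (bp i + cv k)) + bp i := by abel
    rw [e]
    have := norm_add_le (x - (bp i + cv k)) (bp i)
    have := norm_bp_le i
    have := hle n
    linarith
  obtain ⟨l, hl, hfin⟩ := h.fin_defect hc a b k k' ha hb (fun n => hnear _ _ _ _ (hk n))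
    (fun n => hnear _ _ _ _ (hk' n))
  have hmono := h.phi_mono hc l
  have key : ∀ s t, s ≤ t → ∀ η > 0, (t - u l (c t)) - (s - u l (c s)) ≤ (12 * M + 3) * η := by
    intro s t hst η hη
    obtain ⟨N, hN1, hN2⟩ := tails_small hmono hfin hη
    have hev : ∀ x : ℝ, ∀ᶠ n : ℕ in atTop, x ≤ n := fun x =>
      tendsto_natCast_atTop_atTop.eventually (eventually_ge_atTop x)
    have hsm : ∀ᶠ n : ℕ in atTop, (1 : ℝ) / (n + 1) < η :=
      tendsto_one_div_add_atTop_nhds_zero_nat.eventually (gt_mem_nhds hη)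
    obtain ⟨n, hn, hnN, hns, hnt, hnη⟩ :=
      (hl.and_eventually ((hev N).and ((hev (-s)).and ((hev t).and hsm)))).exists
    obtain ⟨τ, τ', hτ⟩ := h.zc_all l i j (k n) (k' n) hn η hη
    obtain ⟨p, q, κ, hp, hq, hpκ, hqκ⟩ := hi η hη (-τ) (-a n)
    obtain ⟨p', q', κ', hp', hq', hpκ', hqκ'⟩ := hj η hη τ' (b n)
    have han := ha n
    have hbn := hb n
    rw [neg_neg] at hp hq
    have d1 := (h.df_near l hpκ).1
    have d2 : df D (u l) (bp i + cv κ) (c q + cv (ev i τ)) ≤ 2 * M * η := by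
      refine (h.df_near l ?_).2
      convert hqκ using 2
      have : ev i (-τ) = -ev i τ := by simp [ev, Pi.single_neg]
      rw [this]; simp only [cv_add, cv_neg]; abel
    have d3 : df D (u l) (c q + cv (ev i τ)) (c (a n) + cv (ev i τ)) < η := by
      rw [h.df_per, df_line hc l hq]
      exact hN1 _ _ (by linarith) (by linarith)
    have d4 : df D (u l) (c (a n) + cv (ev i τ)) (bp i + cv (k n + ev i τ)) ≤ 2 * M * η := by
      refine (h.df_near l ?_).1
      have e : c (a n) + cv (ev i τ) - (bp i + cv (k n + ev i τ)) = c (a n) - (bp i + cv (k n)) := by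
        simp only [cv_add]; abel
      rw [e]; exact (hk n).trans hnη
    have d6 : df D (u l) (bp j + cv (k' n + ev j τ')) (c (b n) + cv (ev j τ')) ≤ 2 * M * η := by
      refine (h.df_near l ?_).2
      have e : c (b n) + cv (ev j τ') - (bp j + cv (k' n + ev j τ'))
          = c (b n) - (bp j + cv (k' n)) := by
        simp only [cv_add]; abel
      rw [e]; exact (hk' n).trans hnη
    have d7 : df D (u l) (c (b n) + cv (ev j τ')) (c p' + cv (ev j τ')) < η := by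
      rw [h.df_per, df_line hc l hp']
      exact hN2 _ _ (by linarith) (by linarith)
    have d8 : df D (u l) (c p' + cv (ev j τ')) (bp j + cv (κ' + ev j τ')) ≤ 2 * M * η := by
      refine (h.df_near l ?_).1
      convert hpκ' using 2
      simp only [cv_add]; abel
    have d9 := (h.df_near l hqκ').2
    have t1 := h.df_tri l (c p) (bp i + cv κ) (c q')
    have t2 := h.df_tri l (bp i + cv κ) (c q + cv (ev i τ)) (c q')
    have t3 := h.df_tri l (c q + cv (ev i τ)) (c (a n) + cv (ev i τ)) (c q')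
    have t4 := h.df_tri l (c (a n) + cv (ev i τ)) (bp i + cv (k n + ev i τ)) (c q')
    have t5 := h.df_tri l (bp i + cv (k n + ev i τ)) (bp j + cv (k' n + ev j τ')) (c q')
    have t6 := h.df_tri l (bp j + cv (k' n + ev j τ')) (c (b n) + cv (ev j τ')) (c q')
    have t7 := h.df_tri l (c (b n) + cv (ev j τ')) (c p' + cv (ev j τ')) (c q')
    have t8 := h.df_tri l (c p' + cv (ev j τ')) (bp j + cv (κ' + ev j τ')) (c q')
    have e := df_line (u := u) hc l (show p ≤ q' by linarith)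
    have m1 := hmono (show p ≤ s by linarith)
    have m2 := hmono (show t ≤ q' by linarith)
    simp only at m1 m2
    linarith
  have key2 : ∀ s t, s ≤ t → u l (c t) - u l (c s) = t - s := fun s t hst => by
    have m1 := hmono hst
    simp only at m1
    have hM := h.Mpos
    have : (t - u l (c t)) - (s - u l (c s)) ≤ 0 := by
      refine le_of_forall_pos_le_add fun ε hε => ?_
      have := key s t hst (ε / (12 * M + 3)) (by positivity)
      rw [mul_div_cancel₀ _ (by positivity)] at this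
      linarith
    linarith
  refine ⟨l, fun s t => ?_⟩
  rcases le_total s t with hst | hst
  · exact key2 s t hst
  · have := key2 t s hst; linarith

omit h in
lemma reparam {c c₀ : ℝ → E3} (hc : IsLine D c) (hc₀ : IsLine D c₀) (hr : range c ⊆ range c₀) :
    ∃ a b : ℝ, (a = 1 ∨ a = -1) ∧ ∀ t, c t = c₀ (a * t + b) := by
  choose f hf using fun t => hr (mem_range_self t)
  have hiso : ∀ s t, |f t - f s| = |t - s| := fun s t => by rw [← hc₀, hf, hf, hc]
  have h1 := hiso 0 1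
  rw [sub_zero, abs_one] at h1
  refine ⟨f 1 - f 0, f 0, ?_, fun t => ?_⟩
  · rcases abs_cases (f 1 - f 0) with h2 | h2
    · left; linarith
    · right; linarith
  · rw [← hf t]
    congr 1
    have h2 := hiso 0 t
    have h3 := hiso 1 t
    rw [← sq_eq_sq_iff_abs_eq_abs] at h2 h3
    have h4 : (f 1 - f 0) ^ 2 = 1 := by rw [← sq_abs, h1]; norm_num
    have h5 : (f t - f 0) * (f 1 - f 0) = t := by nlinarith
    have : f t - f 0 = (f t - f 0) * (f 1 - f 0) ^ 2 := by rw [h4, mul_one]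
    have h6 : f t - f 0 = t * (f 1 - f 0) := by rw [this, sq, ← mul_assoc, h5]
    linarith

theorem finite_lines [Finite B] : ∃ S : Set (ℝ → E3), S.Finite ∧ ∀ c, IsLine D c →
    ∃ c₀ ∈ S, ∃ (a b : ℝ) (k : Z3), (a = 1 ∨ a = -1) ∧ ∀ t, c t = c₀ (a * t + b) + cv k := by
  classical
  let rep : B → ℝ → E3 := fun b =>
    if hb : ∃ c, IsLine D c ∧ range c = Γ b then hb.choose else fun _ => 0
  refine ⟨range rep, finite_range rep, fun c hc => ?_⟩
  obtain ⟨l, hl⟩ := h.calibrated hc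
  obtain ⟨b, k, hb⟩ := h.cal l c hc hl
  have hc' : IsLine D fun t => c t - cv k := fun s t => by
    rw [← h.per _ _ k]; simp only [sub_add_cancel]; exact hc s t
  have hr : range (fun t => c t - cv k) = Γ b := by
    have : range (fun t => c t - cv k) = (fun x => x - cv k) '' range c := by
      rw [← range_comp]; rfl
    rw [this, hb, image_image]; simp
  have hex : ∃ c, IsLine D c ∧ range c = Γ b := ⟨_, hc', hr⟩
  have hrep : rep b = hex.choose := dif_pos hex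
  obtain ⟨a, b', ha, hab⟩ := reparam hc' hex.choose_spec.1 (by rw [hr, hex.choose_spec.2])
  refine ⟨rep b, mem_range_self b, a, b', k, ha, fun t => ?_⟩
  rw [hrep, ← hab t, sub_add_cancel]

end MetData

end Pool.Agent.MP_4d76c1_gt

end

section

open Set Filter Topology Function
open scoped ContDiff

namespace Pool.Agent.MP_4d76c1_gt

/-- the base line of type `i` -/
def OnL (i : Fin 3) (x : E3) : Prop := x (i + 1) = 0 ∧ x (i + 2) = 1 / 2

/-- the two ends of the unit interval -/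
noncomputable def lf : Bool → Filter ℝ
  | false => 𝓝[>] 0
  | true => 𝓝[<] 1

/-- calibration of a channel -/
def Cal (f s : ℝ → ℝ) (σ : Bool) : Prop :=
  ∃ C : ℝ, ∀ r ∈ Ioo (0 : ℝ) 1, f r = (sz σ : ℝ) * s r + C

structure Chan (Λ : Type) where
  γ : Λ → ℝ → E3
  π : Λ → E3 → ℝ
  sig : Λ → E3 → ℝ
  F : Λ → Sgn → E3 → ℝ
  typ : Λ → Bool → Fin 3
  κ : Λ → Bool → Z3
  W : Fin 3 → E3 → E3
  γ_smooth : ∀ a, ∀ r ∈ Ioo (0 : ℝ) 1, ContDiffAt ℝ ∞ (γ a) r
  π_smooth : ∀ a, ContDiff ℝ ∞ (π a)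
  sig_smooth : ∀ a, ContDiff ℝ ∞ (sig a)
  F_smooth : ∀ a l, ContDiff ℝ ∞ (F a l)
  W_smooth : ∀ i, ContDiff ℝ ∞ (W i)
  W_inv : ∀ i y y', y (i + 1) = y' (i + 1) → y (i + 2) = y' (i + 2) → W i y = W i y'
  W_line : ∀ i y, OnL i y → W i y = Pi.single i 1
  π_γ : ∀ a, ∀ r ∈ Ioo (0 : ℝ) 1, π a (γ a r) = r
  dF : ∀ a l y v, |fderiv ℝ (F a l) y v| ≤ |fderiv ℝ (sig a) y v|
  dS : ∀ a, ∀ r ∈ Ioo (0 : ℝ) 1, 0 < fderiv ℝ (sig a) (γ a r) (deriv (γ a) r)
  tangent : ∀ a σ, ∀ᶠ r in lf σ,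
    deriv (γ a) r = deriv (γ a) r (typ a σ) • W (typ a σ) (γ a r - cv (κ a σ))
  germ : ∀ a σ l, ∀ᶠ r in lf σ, F a l =ᶠ[𝓝 (γ a r)]
    fun x => (sz (l (typ a σ)) : ℝ) * (x - cv (κ a σ)) (typ a σ) + dot l (cv (κ a σ))
  conv1 : ∀ a σ, Tendsto (fun r => γ a r (typ a σ + 1)) (lf σ) (𝓝 (κ a σ (typ a σ + 1)))
  conv2 : ∀ a σ, Tendsto (fun r => γ a r (typ a σ + 2)) (lf σ) (𝓝 (κ a σ (typ a σ + 2) + 1 / 2))
  escape : ∀ a σ, Tendsto (fun r => γ a r (typ a σ)) (lf σ) atTop ∨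
    Tendsto (fun r => γ a r (typ a σ)) (lf σ) atBot
  inj : ∀ a b k, ∀ r ∈ Ioo (0 : ℝ) 1, ∀ r' ∈ Ioo (0 : ℝ) 1, γ a r = γ b r' + cv k → a = b ∧ r = r'
  off : ∀ a i k, ∀ r ∈ Ioo (0 : ℝ) 1, ¬ OnL i (γ a r - cv k)
  hom : ∀ (l : Sgn) i j, i ≠ j → ∃ a σ, typ a (!σ) = i ∧ typ a σ = i ∧
    κ a σ = κ a (!σ) + ev j (sz (l j)) ∧ Cal (fun r => F a l (γ a r)) (fun r => sig a (γ a r)) σ
  het : ∀ (l : Sgn) i j, i ≠ j → ∃ a σ, typ a (!σ) = i ∧ typ a σ = j ∧
    κ a σ = κ a (!σ) ∧ Cal (fun r => F a l (γ a r)) (fun r => sig a (γ a r)) σ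

lemma fin3_cases (i r : Fin 3) : r = i ∨ r = i + 1 ∨ r = i + 2 := by
  revert i r; decide

lemma fin3_ne1 (i : Fin 3) : i + 1 ≠ i := by revert i; decide
lemma fin3_ne2 (i : Fin 3) : i + 2 ≠ i := by revert i; decide
lemma fin3_ne3 (i : Fin 3) : i + 1 ≠ i + 2 := by revert i; decide

lemma lf_neBot (σ : Bool) : (lf σ).NeBot := by
  cases σ
  · exact nhdsGT_neBot 0
  · exact nhdsLT_neBot 1

lemma Ioo_mem_lf (σ : Bool) : Ioo (0 : ℝ) 1 ∈ lf σ := by
  cases σ
  · exact Ioo_mem_nhdsGT one_pos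
  · exact Ioo_mem_nhdsLT one_pos

lemma exists_preconnected_lf {σ : Bool} {s : Set ℝ} (hs : s ∈ lf σ) :
    ∃ J ⊆ s, IsPreconnected J ∧ J ∈ lf σ := by
  cases σ
  · obtain ⟨u, hu, hsub⟩ := mem_nhdsGT_iff_exists_Ioo_subset.1 hs
    exact ⟨_, hsub, isPreconnected_Ioo, Ioo_mem_nhdsGT hu⟩
  · obtain ⟨u, hu, hsub⟩ := mem_nhdsLT_iff_exists_Ioo_subset.1 hs
    exact ⟨_, hsub, isPreconnected_Ioo, Ioo_mem_nhdsLT hu⟩

lemma exists_delta_lf {Q : Bool → ℝ → Prop} (hQ : ∀ σ, ∀ᶠ r in lf σ, Q σ r) :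
    ∃ p q : ℝ, 0 < p ∧ q < 1 ∧ ∀ r ∈ Ioo (0 : ℝ) 1, r ∈ Icc p q ∨ ∃ σ, Q σ r := by
  obtain ⟨p, hp, h1⟩ := mem_nhdsGT_iff_exists_Ioo_subset.1 (hQ false)
  obtain ⟨q, hq, h2⟩ := mem_nhdsLT_iff_exists_Ioo_subset.1 (hQ true)
  refine ⟨p, q, hp, hq, fun r hr => ?_⟩
  rcases lt_or_ge r p with h | h
  · exact Or.inr ⟨false, h1 ⟨hr.1, h⟩⟩
  rcases lt_or_ge q r with h' | h'
  · exact Or.inr ⟨true, h2 ⟨h', hr.2⟩⟩
  exact Or.inl ⟨h, h'⟩

lemma int_isolated (x : ℝ) : ∃ ρ > 0, ∀ n : ℤ, |x - n| ≤ ρ → x = n := by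
  have hlf : LocallyFinite fun n : ℤ => ({(n : ℝ)} : Set ℝ) := by
    intro y
    refine ⟨Metric.ball y 1, Metric.ball_mem_nhds y one_pos, ?_⟩
    refine (Set.finite_Icc ⌊y - 1⌋ ⌈y + 1⌉).subset ?_
    rintro n ⟨z, hz, hzy⟩
    rw [mem_singleton_iff] at hz
    subst hz
    rw [Metric.mem_ball, Real.dist_eq, abs_lt] at hzy
    constructor
    · exact Int.floor_le_iff.2 (by linarith)
    · exact Int.le_ceil_iff.2 (by linarith)
  have := hlf.eventually_subset (fun _ => isClosed_singleton) x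
  obtain ⟨ε, hε, h⟩ := Metric.eventually_nhds_iff.1 this
  refine ⟨ε / 2, by linarith, fun n hn => ?_⟩
  have : dist (n : ℝ) x < ε := by rw [Real.dist_eq, abs_sub_comm]; linarith
  exact h this (show n ∈ {i : ℤ | (n : ℝ) ∈ ({(i : ℝ)} : Set ℝ)} from rfl)

lemma near_lines (x : E3) : ∃ ρ > (0 : ℝ), ∀ᶠ y : E3 in 𝓝 x, ∀ (i : Fin 3) (k : Z3),
    |y (i + 1) - (k (i + 1) : ℝ)| ≤ ρ → |y (i + 2) - ((k (i + 2) : ℝ) + 1 / 2)| ≤ ρ → OnL i (x - cv k) := by
  choose ρ1 h1 h1' using fun r => int_isolated (x r)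
  choose ρ2 h2 h2' using fun r => int_isolated (x r - 1 / 2)
  obtain ⟨ρ, hρ, hρ'⟩ : ∃ ρ > 0, ∀ r, ρ ≤ ρ1 r ∧ ρ ≤ ρ2 r := by
    have : ∀ᶠ ρ in 𝓝[>] (0 : ℝ), 0 < ρ ∧ ∀ r, ρ ≤ ρ1 r ∧ ρ ≤ ρ2 r := by
      refine eventually_mem_nhdsWithin.and (eventually_all.2 fun r => ?_)
      exact ((eventually_le_nhds (h1 r)).and (eventually_le_nhds (h2 r))).filter_mono
        nhdsWithin_le_nhds
    exact this.exists
  refine ⟨ρ / 2, by linarith, ?_⟩
  filter_upwards [Metric.closedBall_mem_nhds x (show 0 < ρ / 2 by linarith)] with y hy i k a1 a2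
  have hc : ∀ r, |y r - x r| ≤ ρ / 2 := fun r => by
    have := norm_le_pi_norm (y - x) r
    rw [mem_closedBall_iff_norm] at hy
    exact le_trans this hy
  constructor
  · have := h1' (i + 1) (k (i + 1)) (by
      have := (hρ' (i + 1)).1
      have := hc (i + 1)
      rw [abs_le] at *
      constructor <;> linarith [a1.1, a1.2, this.1, this.2])
    simp [this]
  · have := h2' (i + 2) (k (i + 2)) (by
      have := (hρ' (i + 2)).2
      have := hc (i + 2)
      rw [abs_le] at *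
      constructor <;> linarith [a2.1, a2.2, this.1, this.2])
    simp only [Pi.sub_apply, cv_apply]; linarith

lemma half_not_int (m n : ℤ) : (m : ℝ) ≠ n + 1 / 2 := by
  intro h
  have : ((2 * m : ℤ) : ℝ) = ((2 * n + 1 : ℤ) : ℝ) := by push_cast; linarith
  have := Int.cast_injective this
  omega

lemma OnL_unique {i j : Fin 3} {x : E3} {k k' : Z3} (h : OnL i (x - cv k))
    (h' : OnL j (x - cv k')) : i = j ∧ k (i + 1) = k' (i + 1) ∧ k (i + 2) = k' (i + 2) := by
  obtain ⟨a1, a2⟩ := h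
  obtain ⟨b1, b2⟩ := h'
  simp only [Pi.sub_apply, cv_apply] at a1 a2 b1 b2
  have hij : i = j := by
    rcases fin3_cases i j with e | e | e
    · exact e.symm
    · subst e
      have : i + 1 + 1 = i + 2 := by rw [add_assoc]; rfl
      rw [this] at b1
      exact absurd (by linarith) (half_not_int (k' (i + 2)) (k (i + 2)))
    · subst e
      have : i + 2 + 2 = i + 1 := by rw [add_assoc]; rfl
      rw [this] at b2
      exact absurd (by linarith) (half_not_int (k (i + 1)) (k' (i + 1)))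
  subst hij
  refine ⟨rfl, ?_, ?_⟩
  · exact_mod_cast (show (k (i + 1) : ℝ) = k' (i + 1) by linarith)
  · exact_mod_cast (show (k (i + 2) : ℝ) = k' (i + 2) by linarith)

namespace Chan

variable {Λ : Type} [Finite Λ] (c : Chan Λ)

omit [Finite Λ] in
lemma γ_cont (a : Λ) : ContinuousOn (c.γ a) (Ioo 0 1) := fun r hr =>
  (c.γ_smooth a r hr).continuousAt.continuousWithinAt

/-- local structure of the union of all curves -/
lemma loc_struct {Q : Λ → Bool → ℝ → Prop} (hQ : ∀ a σ, ∀ᶠ r in lf σ, Q a σ r) (x : E3) :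
    ∀ᶠ y in 𝓝 x, (∀ i k, OnL i (y - cv k) → OnL i (x - cv k)) ∧
      ∀ a k, ∀ r ∈ Ioo (0 : ℝ) 1, y = c.γ a r + cv k →
        (∃ r' ∈ Ioo (0 : ℝ) 1, x = c.γ a r' + cv k) ∨
          ∃ σ, Q a σ r ∧ OnL (c.typ a σ) (x - cv (k + c.κ a σ)) := by
  obtain ⟨ρ, hρ, hnear⟩ := near_lines x
  have hQ' : ∀ σ, ∀ᶠ r in lf σ, ∀ a, Q a σ r ∧
      |c.γ a r (c.typ a σ + 1) - c.κ a σ (c.typ a σ + 1)| ≤ ρ ∧
      |c.γ a r (c.typ a σ + 2) - (c.κ a σ (c.typ a σ + 2) + 1 / 2)| ≤ ρ := fun σ => by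
    refine eventually_all.2 fun a => (hQ a σ).and (Eventually.and ?_ ?_)
    · filter_upwards [(c.conv1 a σ).eventually (Metric.closedBall_mem_nhds _ hρ)] with r hr
      simpa [Real.dist_eq] using hr
    · filter_upwards [(c.conv2 a σ).eventually (Metric.closedBall_mem_nhds _ hρ)] with r hr
      simpa [Real.dist_eq] using hr
  obtain ⟨p, q, hp, hq, hpq⟩ := exists_delta_lf hQ'
  have hsub : Icc p q ⊆ Ioo 0 1 := fun r hr => ⟨hp.trans_le hr.1, hr.2.trans_lt hq⟩
  have hmid : ∀ a, ∀ᶠ y in 𝓝 x, ∀ k, y ∈ (fun z => z + cv k) '' (c.γ a '' Icc p q) →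
      x ∈ (fun z => z + cv k) '' (c.γ a '' Icc p q) := fun a => by
    have hK : IsCompact (c.γ a '' Icc p q) :=
      isCompact_Icc.image_of_continuousOn ((c.γ_cont a).mono hsub)
    obtain ⟨R, hR⟩ := hK.isBounded.exists_norm_le
    have hlf : LocallyFinite fun k : Z3 => (fun z => z + cv k) '' (c.γ a '' Icc p q) := by
      refine locallyFinite_translates (R := R) ?_
      rintro k _ ⟨z, hz, rfl⟩
      simpa using hR z hz
    exact hlf.eventually_subset
      (fun k => (hK.image (continuous_id.add continuous_const)).isClosed) x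
  filter_upwards [hnear, eventually_all.2 hmid] with y hy1 hy2
  refine ⟨fun i k hik => hy1 i k ?_ ?_, fun a k r hr hyr => ?_⟩
  · have := hik.1
    simp only [Pi.sub_apply, cv_apply] at this
    rw [this, abs_zero]; exact hρ.le
  · have := hik.2
    simp only [Pi.sub_apply, cv_apply] at this
    rw [show y (i + 2) - (k (i + 2) + 1 / 2) = 0 by linarith, abs_zero]; exact hρ.le
  · rcases hpq r hr with h | ⟨σ, hσ⟩
    · obtain ⟨_, ⟨r', hr', rfl⟩, hx⟩ := hy2 a k ⟨_, ⟨r, h, rfl⟩, hyr.symm⟩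
      exact Or.inl ⟨r', hsub hr', hx.symm⟩
    · refine Or.inr ⟨σ, (hσ a).1, hy1 _ _ ?_ ?_⟩
      · convert (hσ a).2.1 using 2
        rw [hyr]; simp only [Pi.add_apply, cv_apply, Int.cast_add]; ring
      · convert (hσ a).2.2 using 2
        rw [hyr]; simp only [Pi.add_apply, cv_apply, Int.cast_add]; ring

/-- the base curves -/
def Γ : Λ ⊕ Fin 3 → Set E3
  | Sum.inl a => c.γ a '' Ioo 0 1
  | Sum.inr i => {x | OnL i x}

/-- the union of all translates of the base curves -/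
def K : Set E3 := {y | ∃ b k, y - cv k ∈ c.Γ b}

omit [Finite Λ] in
lemma mem_Γ_inl {a : Λ} {y : E3} {k : Z3} :
    y - cv k ∈ c.Γ (Sum.inl a) ↔ ∃ r ∈ Ioo (0 : ℝ) 1, y = c.γ a r + cv k := by
  constructor
  · rintro ⟨r, hr, h⟩; exact ⟨r, hr, by rw [h]; simp⟩
  · rintro ⟨r, hr, h⟩; exact ⟨r, hr, by rw [h]; simp⟩

lemma loc_off {x : E3} (hx : x ∉ c.K) : ∀ᶠ y in 𝓝 x, y ∉ c.K := by
  filter_upwards [c.loc_struct (Q := fun _ _ _ => True) (fun _ _ => Eventually.of_forall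
    fun _ => trivial) x] with y hy
  rintro ⟨b | i, k, hb⟩
  · obtain ⟨r, hr, hyr⟩ := c.mem_Γ_inl.1 hb
    rcases hy.2 b k r hr hyr with h | ⟨σ, -, h⟩
    · exact hx ⟨Sum.inl b, k, c.mem_Γ_inl.2 h⟩
    · exact hx ⟨Sum.inr _, _, h⟩
  · exact hx ⟨Sum.inr i, k, hy.1 i k hb⟩

lemma isClosed_K : IsClosed c.K := by
  rw [← isOpen_compl_iff, isOpen_iff_mem_nhds]
  exact fun x hx => c.loc_off hx

lemma loc_chan {a : Λ} {k : Z3} {x : E3} (hx : x - cv k ∈ c.Γ (Sum.inl a)) :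
    ∀ᶠ y in 𝓝 x, ∀ b k', y - cv k' ∈ c.Γ b → b = Sum.inl a ∧ k' = k := by
  obtain ⟨r0, hr0, hx0⟩ := c.mem_Γ_inl.1 hx
  have hoff : ∀ i k', ¬ OnL i (x - cv k') := fun i k' h => by
    refine c.off a i (k' - k) r0 hr0 ?_
    convert h using 1
    rw [hx0, cv_sub]; abel
  filter_upwards [c.loc_struct (Q := fun _ _ _ => True) (fun _ _ => Eventually.of_forall
    fun _ => trivial) x] with y hy
  rintro (b | i) k' hb
  · obtain ⟨r, hr, hyr⟩ := c.mem_Γ_inl.1 hb
    rcases hy.2 b k' r hr hyr with ⟨r', hr', h⟩ | ⟨σ, -, h⟩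
    · have e : c.γ b r' = c.γ a r0 + cv (k - k') := by
        rw [cv_sub, ← add_sub_assoc, ← hx0, h]; abel
      obtain ⟨rfl, rfl⟩ := c.inj b a _ r' hr' r0 hr0 e
      refine ⟨rfl, ?_⟩
      have e2 : cv (k - k') = 0 := by simpa using e.symm
      ext s
      have := congrFun e2 s
      simp only [cv_apply, Pi.sub_apply, Int.cast_sub, Pi.zero_apply] at this
      exact_mod_cast (sub_eq_zero.1 this).symm
    · exact absurd h (hoff _ _)
  · exact absurd (hy.1 i k' hb) (hoff _ _)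

lemma loc_line {Q : Λ → Bool → ℝ → Prop} (hQ : ∀ a σ, ∀ᶠ r in lf σ, Q a σ r)
    {i : Fin 3} {k : Z3} {x : E3} (hx : OnL i (x - cv k)) :
    ∀ᶠ y in 𝓝 x, (∀ j k', OnL j (y - cv k') →
        i = j ∧ k (i + 1) = k' (i + 1) ∧ k (i + 2) = k' (i + 2)) ∧
      ∀ a k', ∀ r ∈ Ioo (0 : ℝ) 1, y = c.γ a r + cv k' → ∃ σ, Q a σ r ∧ i = c.typ a σ ∧
        k (i + 1) = (k' + c.κ a σ) (i + 1) ∧ k (i + 2) = (k' + c.κ a σ) (i + 2) := by
  filter_upwards [c.loc_struct hQ x] with y hy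
  refine ⟨fun j k' h => OnL_unique hx (hy.1 j k' h), fun a k' r hr hyr => ?_⟩
  rcases hy.2 a k' r hr hyr with ⟨r', hr', h⟩ | ⟨σ, h1, h2⟩
  · refine absurd ?_ (c.off a i (k - k') r' hr')
    convert hx using 1
    rw [h, cv_sub]; abel
  · exact ⟨σ, h1, OnL_unique hx h2⟩

lemma isClosed_chan (a : Λ) (k : Z3) : IsClosed {y | y - cv k ∈ c.Γ (Sum.inl a)} := by
  rw [← isOpen_compl_iff, isOpen_iff_mem_nhds]
  intro x hx
  have hQ : ∀ b σ, ∀ᶠ r in lf σ, 1 < |c.γ b r (c.typ b σ) + k (c.typ b σ) - x (c.typ b σ)| := by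
    intro b σ
    rcases c.escape b σ with h | h
    · filter_upwards [h.eventually (eventually_gt_atTop (1 - k (c.typ b σ) + x (c.typ b σ)))]
        with r hr
      exact lt_abs.2 (Or.inl (by linarith))
    · filter_upwards [h.eventually (eventually_lt_atBot (-1 - k (c.typ b σ) + x (c.typ b σ)))]
        with r hr
      exact lt_abs.2 (Or.inr (by linarith))
  filter_upwards [c.loc_struct hQ x, Metric.ball_mem_nhds x one_pos] with y hy hyx hya
  obtain ⟨r, hr, hyr⟩ := c.mem_Γ_inl.1 hya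
  rcases hy.2 a k r hr hyr with h | ⟨σ, h1, -⟩
  · exact hx (c.mem_Γ_inl.2 h)
  · have := norm_le_pi_norm (y - x) (c.typ a σ)
    rw [mem_ball_iff_norm] at hyx
    rw [hyr] at this hyx
    simp only [Pi.sub_apply, Pi.add_apply, cv_apply, Real.norm_eq_abs] at this
    linarith

end Chan

lemma onto_of_inj {ρ : ℝ → ℝ} (hc : Continuous ρ) (hi : Injective ρ) {s : Set ℝ}
    (hs : ∀ t, ρ t ∈ s) (h1 : ∀ p ∈ s, ∀ q ∈ s, ¬ ∀ t ≤ 0, ρ t ∈ Icc p q)
    (h2 : ∀ p ∈ s, ∀ q ∈ s, ¬ ∀ t ≥ 0, ρ t ∈ Icc p q) : s ⊆ range ρ := by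
  intro r hr
  by_contra hcon
  have hside : (∀ t, ρ t < r) ∨ ∀ t, r < ρ t := by
    by_contra h
    push Not at h
    obtain ⟨⟨t1, h1⟩, t2, h2⟩ := h
    exact hcon (intermediate_value_univ t2 t1 hc ⟨h2, h1⟩)
  rcases hc.strictMono_of_inj hi with hm | hm <;> rcases hside with h | h
  · exact h2 _ (hs 0) _ hr fun t ht => ⟨hm.monotone ht, (h t).le⟩
  · exact h1 _ hr _ (hs 0) fun t ht => ⟨(h t).le, hm.monotone ht⟩
  · exact h1 _ (hs 0) _ hr fun t ht => ⟨hm.antitone ht, (h t).le⟩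
  · exact h2 _ hr _ (hs 0) fun t ht => ⟨(h t).le, hm.antitone ht⟩

namespace Chan

variable {Λ : Type} [Finite Λ] (c : Chan Λ)

/-- a proper injective curve inside `K` is one of the curves -/
lemma range_eq {f : ℝ → E3} (hf : Continuous f) (hi : Injective f) {M : ℝ}
    (hp : ∀ t, |t| ≤ M * ‖f t - f 0‖) (hM : 0 < M) (hK : ∀ t, f t ∈ c.K) :
    ∃ b k, range f = (fun x => x + cv k) '' c.Γ b := by
  have hunb : ∀ S : Set E3, IsCompact S → (¬ ∀ t ≤ 0, f t ∈ S) ∧ ¬ ∀ t ≥ 0, f t ∈ S := by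
    intro S hS
    obtain ⟨R, hR⟩ := hS.isBounded.exists_norm_le
    have key : ∀ t, f t ∈ S → f 0 ∈ S → |t| ≤ M * (2 * R) := fun t h1 h2 => by
      refine (hp t).trans (mul_le_mul_of_nonneg_left ?_ hM.le)
      have := norm_sub_le (f t) (f 0)
      have := hR _ h1
      have := hR _ h2
      linarith
    constructor
    · intro h
      have := key (-(|M * (2 * R)| + 1)) (h _ (by have := abs_nonneg (M * (2 * R)); linarith))
        (h 0 le_rfl)
      rw [abs_neg, abs_of_pos (by positivity)] at this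
      have := le_abs_self (M * (2 * R))
      linarith
    · intro h
      have := key (|M * (2 * R)| + 1) (h _ (by positivity)) (h 0 le_rfl)
      rw [abs_of_pos (by positivity)] at this
      have := le_abs_self (M * (2 * R))
      linarith
  by_cases hA : ∃ t a k, f t - cv k ∈ c.Γ (Sum.inl a)
  · obtain ⟨t0, a, k, h0⟩ := hA
    have hclopen : IsClopen {t | f t - cv k ∈ c.Γ (Sum.inl a)} := by
      refine ⟨(c.isClosed_chan a k).preimage hf, isOpen_iff_mem_nhds.2 fun t ht => ?_⟩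
      filter_upwards [hf.continuousAt.eventually (c.loc_chan ht)] with s hs
      obtain ⟨b, k', hb⟩ := hK s
      obtain ⟨rfl, rfl⟩ := hs b k' hb
      exact hb
    have hall : ∀ t, f t - cv k ∈ c.Γ (Sum.inl a) := fun t => by
      have := hclopen.eq_univ ⟨t0, h0⟩
      exact (this ▸ mem_univ t : t ∈ {t | f t - cv k ∈ c.Γ (Sum.inl a)})
    let ρ : ℝ → ℝ := fun t => c.π a (f t - cv k)
    have hρ : ∀ t, ρ t ∈ Ioo (0 : ℝ) 1 ∧ f t = c.γ a (ρ t) + cv k := fun t => by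
      obtain ⟨r, hr, h⟩ := c.mem_Γ_inl.1 (hall t)
      have : ρ t = r := by simp only [ρ, h, add_sub_cancel_right]; exact c.π_γ a r hr
      rw [this]; exact ⟨hr, h⟩
    have hcomp : ∀ p ∈ Ioo (0 : ℝ) 1, ∀ q ∈ Ioo (0 : ℝ) 1,
        IsCompact ((fun z => z + cv k) '' (c.γ a '' Icc p q)) := fun p hp q hq =>
      (isCompact_Icc.image_of_continuousOn ((c.γ_cont a).mono fun r hr =>
        ⟨hp.1.trans_le hr.1, hr.2.trans_lt hq.2⟩)).image (continuous_id.add continuous_const)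
    have honto : Ioo (0 : ℝ) 1 ⊆ range ρ := by
      refine onto_of_inj (ρ := ρ) ((c.π_smooth a).continuous.comp (hf.sub continuous_const))
        (fun s t hst => hi (by rw [(hρ s).2, (hρ t).2, hst])) (fun t => (hρ t).1) ?_ ?_
      · intro p hp q hq h
        exact (hunb _ (hcomp p hp q hq)).1 fun t ht => ⟨_, ⟨_, h t ht, rfl⟩, (hρ t).2.symm⟩
      · intro p hp q hq h
        exact (hunb _ (hcomp p hp q hq)).2 fun t ht => ⟨_, ⟨_, h t ht, rfl⟩, (hρ t).2.symm⟩
    refine ⟨Sum.inl a, k, Subset.antisymm ?_ ?_⟩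
    · rintro _ ⟨t, rfl⟩
      exact ⟨_, hall t, by simp⟩
    · rintro _ ⟨_, ⟨r, hr, rfl⟩, rfl⟩
      obtain ⟨t, rfl⟩ := honto hr
      exact ⟨t, (hρ t).2⟩
  · have hL : ∀ t, ∃ i k, OnL i (f t - cv k) := fun t => by
      obtain ⟨b | i, k, hb⟩ := hK t
      · exact absurd ⟨t, b, k, hb⟩ hA
      · exact ⟨i, k, hb⟩
    obtain ⟨i, k, h0⟩ := hL 0
    have hclopen : IsClopen {t | OnL i (f t - cv k)} := by
      refine ⟨?_, isOpen_iff_mem_nhds.2 fun t ht => ?_⟩
      · refine IsClosed.inter (isClosed_eq ?_ continuous_const) (isClosed_eq ?_ continuous_const)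
          <;> fun_prop
      · filter_upwards [hf.continuousAt.eventually (c.loc_line (Q := fun _ _ _ => True)
          (fun _ _ => Eventually.of_forall fun _ => trivial) ht)] with s hs
        obtain ⟨j, k', hj⟩ := hL s
        obtain ⟨rfl, e1, e2⟩ := hs.1 j k' hj
        obtain ⟨a1, a2⟩ := hj
        constructor
        · simpa [e1] using a1
        · simpa [e2] using a2
    have hall : ∀ t, OnL i (f t - cv k) := fun t => by
      have := hclopen.eq_univ ⟨0, h0⟩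
      exact (this ▸ mem_univ t : t ∈ {t | OnL i (f t - cv k)})
    let g : ℝ → E3 := fun r => fun s => if s = i then r else f 0 s
    have hg : Continuous g := by
      refine continuous_pi fun s => ?_
      by_cases hs : s = i
      · simp only [g, hs, if_true]; exact continuous_id
      · simp only [g, hs, if_false]; exact continuous_const
    have hi1 : i + 1 ≠ i := fin3_ne1 i
    have hi2 : i + 2 ≠ i := fin3_ne2 i
    have hgl : ∀ y, OnL i (y - cv k) → y = g (y i) := fun y hy => by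
      ext s
      obtain ⟨a1, a2⟩ := hy
      obtain ⟨b1, b2⟩ := h0
      simp only [Pi.sub_apply] at a1 a2 b1 b2
      rcases fin3_cases i s with rfl | rfl | rfl
      · simp [g]
      · simp only [g, hi1, if_false]; linarith
      · simp only [g, hi2, if_false]; linarith
    have honto : (univ : Set ℝ) ⊆ range fun t => f t i := by
      refine onto_of_inj (by fun_prop)
        (fun s t hst => hi (by rw [hgl _ (hall s), hgl _ (hall t)]; exact congrArg g hst))
        (fun t => mem_univ _) ?_ ?_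
      · intro p _ q _ h
        exact (hunb _ (isCompact_Icc.image hg)).1 fun t ht => ⟨_, h t ht, (hgl _ (hall t)).symm⟩
      · intro p _ q _ h
        exact (hunb _ (isCompact_Icc.image hg)).2 fun t ht => ⟨_, h t ht, (hgl _ (hall t)).symm⟩
    refine ⟨Sum.inr i, k, Subset.antisymm ?_ ?_⟩
    · rintro _ ⟨t, rfl⟩
      exact ⟨_, hall t, by simp⟩
    · rintro _ ⟨y, hy, rfl⟩
      obtain ⟨t, ht⟩ := honto (mem_univ ((y + cv k) i))
      refine ⟨t, ?_⟩
      have hy' : OnL i (y + cv k - cv k) := by rw [add_sub_cancel_right]; exact hy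
      show f t = y + cv k
      rw [hgl _ (hall t), hgl _ hy']
      exact congrArg g ht

omit [Finite Λ] in
lemma approach (a : Λ) (σ : Bool) {Q : ℝ → Prop} (hQ : ∀ᶠ r in lf σ, Q r) {η : ℝ} (hη : 0 < η)
    (τ : ℤ) : ∃ n : ℤ, ∃ r ∈ Ioo (0 : ℝ) 1, ∃ r' ∈ Ioo (0 : ℝ) 1, Q r ∧ Q r' ∧
      ‖c.γ a r - (bp (c.typ a σ) + cv (c.κ a σ + ev (c.typ a σ) n))‖ < η ∧
      ‖c.γ a r' - (bp (c.typ a σ) + cv (c.κ a σ + ev (c.typ a σ) n + ev (c.typ a σ) τ))‖ < η := by
  set i := c.typ a σ with hi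
  have h1 := (c.conv1 a σ).eventually (Metric.ball_mem_nhds _ hη)
  have h2 := (c.conv2 a σ).eventually (Metric.ball_mem_nhds _ hη)
  obtain ⟨J, hJ, hJc, hJl⟩ := exists_preconnected_lf
    (Filter.inter_mem (Ioo_mem_lf σ) (hQ.and (h1.and h2)))
  have := lf_neBot σ
  obtain ⟨r0, hr0⟩ := Filter.nonempty_of_mem hJl
  have hcont : ContinuousOn (fun r => c.γ a r i) J :=
    (continuous_apply i).comp_continuousOn ((c.γ_cont a).mono fun r hr => (hJ hr).1)
  have hi1 : i + 1 ≠ i := fin3_ne1 i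
  have hi2 : i + 2 ≠ i := fin3_ne2 i
  have hi3 : i + 1 ≠ i + 2 := fin3_ne3 i
  have key : ∀ (n : ℤ), ∀ r ∈ J, c.γ a r i = (c.κ a σ i : ℝ) + n →
      ‖c.γ a r - (bp i + cv (c.κ a σ + ev i n))‖ < η := fun n r hr hn => by
    refine (pi_norm_lt_iff hη).2 fun s => ?_
    obtain ⟨-, -, a1, a2⟩ := hJ hr
    rw [Real.dist_eq, ← hi] at a1 a2
    rcases fin3_cases i s with rfl | rfl | rfl
    · simpa [bp, ev, hi2.symm, hn] using hη
    · simpa [bp, ev, hi1, hi3] using a1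
    · simp only [bp, ev, Pi.sub_apply, Pi.add_apply, Pi.single_eq_same, cv_apply,
        Pi.single_eq_of_ne hi2, add_zero, Real.norm_eq_abs]
      rwa [add_comm (1 / 2 : ℝ)]
  have fin : ∀ n : ℤ, (c.κ a σ i : ℝ) + n ∈ (fun r => c.γ a r i) '' J →
      (c.κ a σ i : ℝ) + (n + τ : ℤ) ∈ (fun r => c.γ a r i) '' J →
      ∃ n : ℤ, ∃ r ∈ Ioo (0 : ℝ) 1, ∃ r' ∈ Ioo (0 : ℝ) 1, Q r ∧ Q r' ∧
      ‖c.γ a r - (bp i + cv (c.κ a σ + ev i n))‖ < η ∧
      ‖c.γ a r' - (bp i + cv (c.κ a σ + ev i n + ev i τ))‖ < η := by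
    rintro n ⟨r, hr, e⟩ ⟨r', hr', e'⟩
    refine ⟨n, r, (hJ hr).1, r', (hJ hr').1, (hJ hr).2.1, (hJ hr').2.1, key n r hr e, ?_⟩
    rw [add_assoc, ← ev_add]
    exact key _ r' hr' e'
  rcases c.escape a σ with h | h
  · have hsub := hJc.intermediate_value_Ici hr0 (le_principal_iff.2 hJl) hcont h
    obtain ⟨n, hn⟩ := exists_int_gt (c.γ a r0 i - c.κ a σ i + |(τ : ℝ)|)
    have := abs_nonneg (τ : ℝ)
    have := neg_abs_le (τ : ℝ)
    refine fin n (hsub ?_) (hsub ?_)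
    · show c.γ a r0 i ≤ _; linarith
    · show c.γ a r0 i ≤ _; push_cast; linarith
  · have hsub := hJc.intermediate_value_Iic hr0 (le_principal_iff.2 hJl) hcont h
    obtain ⟨n, hn⟩ := exists_int_lt (c.γ a r0 i - c.κ a σ i - |(τ : ℝ)|)
    have := abs_nonneg (τ : ℝ)
    have := le_abs_self (τ : ℝ)
    refine fin n (hsub ?_) (hsub ?_)
    · show _ ≤ c.γ a r0 i; linarith
    · show _ ≤ c.γ a r0 i; push_cast; linarith

end Chan

end Pool.Agent.MP_4d76c1_gt

end
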