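import Mathlib
import Pool.Agent.Mg.F4d76c1.G8ae265

section

open Set MeasureTheory
open scoped ENNReal

namespace Pool.Agent.MP_4d76c1_gt

/-- The Riemannian distance on `ℝ³` of a field `G` of bilinear forms: the infimum of the lengths
`∫₀¹ √(G(γ t)(γ' t, γ' t)) dt` of the `C¹` paths `γ : [0,1] → ℝ³` from `x` to `y`. -/
noncomputable def riemDist (G : (Fin 3 → ℝ) → (Fin 3 → ℝ) →L[ℝ] (Fin 3 → ℝ) →L[ℝ] ℝ)
    (x y : Fin 3 → ℝ) : ℝ≥0∞ :=
  ⨅ (γ : ℝ → Fin 3 → ℝ) (_ : ContDiffOn ℝ 1 γ (Icc 0 1)) (_ : γ 0 = x) (_ : γ 1 = y),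
    ∫⁻ t in Icc (0 : ℝ) 1, ENNReal.ofReal (Real.sqrt (G (γ t) (deriv γ t) (deriv γ t)))

end Pool.Agent.MP_4d76c1_gt

end

section

open Set Filter Topology Function MeasureTheory
open scoped Manifold ContDiff ENNReal

set_option linter.style.haveILetI false

namespace Pool.Agent.MP_4d76c1_gt

abbrev Bil : Type := E3 →L[ℝ] E3 →L[ℝ] ℝ

/-- the family of extended norms on tangent spaces given by `G` -/
@[reducible] noncomputable def enormOf (G : E3 → Bil) :
    ∀ z : E3, ENorm (TangentSpace 𝓘(ℝ, E3) z) :=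
  fun z => ⟨fun v => ENNReal.ofReal (Real.sqrt (G z v v))⟩

lemma enormSMul (G : E3 → Bil) :
    letI := enormOf G
    ∀ z : E3, ENormSMulClass ℝ (TangentSpace 𝓘(ℝ, E3) z) := by
  letI := enormOf G
  intro z
  refine ⟨fun c v => ?_⟩
  show ENNReal.ofReal (Real.sqrt (G z (c • (v : E3)) (c • (v : E3)))) =
    ‖c‖ₑ * ENNReal.ofReal (Real.sqrt (G z v v))
  have h : ∀ w : E3, G z (c • w) (c • w) = c ^ 2 * G z w w := fun w => by
    simp only [map_smul, smul_apply, smul_eq_mul]; ring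
  have : G z (c • (v : E3)) (c • (v : E3)) = c ^ 2 * G z v v := h v
  rw [this, Real.sqrt_mul (sq_nonneg c), Real.sqrt_sq_eq_abs, ENNReal.ofReal_mul (abs_nonneg c),
    Real.enorm_eq_ofReal_abs]

lemma pathELength_eq (G : E3 → Bil) (γ : ℝ → E3) (a b : ℝ) :
    letI := enormOf G
    Manifold.pathELength 𝓘(ℝ, E3) γ a b =
      ∫⁻ t in Icc a b, ENNReal.ofReal (Real.sqrt (G (γ t) (deriv γ t) (deriv γ t))) := by
  letI := enormOf G
  rw [Manifold.pathELength_eq_lintegral_mfderiv_Icc]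
  refine lintegral_congr fun t => ?_
  have : mfderiv 𝓘(ℝ, ℝ) 𝓘(ℝ, E3) γ t 1 = deriv γ t := by
    rw [mfderiv_eq_fderiv]; rfl
  show ENNReal.ofReal (Real.sqrt (G (γ t) (mfderiv 𝓘(ℝ, ℝ) 𝓘(ℝ, E3) γ t 1)
    (mfderiv 𝓘(ℝ, ℝ) 𝓘(ℝ, E3) γ t 1))) = _
  rw [this]

lemma riemDist_eq (G : E3 → Bil) (x y : E3) :
    letI := enormOf G
    riemDist G x y = Manifold.riemannianEDist 𝓘(ℝ, E3) x y := by
  letI := enormOf G
  haveI := enormSMul G
  apply le_antisymm
  · refine le_of_forall_gt fun r hr => ?_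
    obtain ⟨γ, h0, h1, hγ, hl⟩ := Manifold.exists_lt_of_riemannianEDist_lt hr
    rw [pathELength_eq] at hl
    refine lt_of_le_of_lt ?_ hl
    exact iInf_le_of_le γ (iInf_le_of_le hγ.contDiffOn (iInf_le_of_le h0 (iInf_le _ h1)))
  · refine le_iInf fun γ => le_iInf fun hγ => le_iInf fun h0 => le_iInf fun h1 => ?_
    rw [← pathELength_eq]
    exact Manifold.riemannianEDist_le_pathELength hγ.contMDiffOn h0 h1 zero_le_one

lemma riemDist_triangle (G : E3 → Bil) (x y z : E3) :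
    riemDist G x z ≤ riemDist G x y + riemDist G y z := by
  letI := enormOf G
  haveI := enormSMul G
  rw [riemDist_eq, riemDist_eq, riemDist_eq]
  exact Manifold.riemannianEDist_triangle

lemma riemDist_comm (G : E3 → Bil) (x y : E3) : riemDist G x y = riemDist G y x := by
  letI := enormOf G
  haveI := enormSMul G
  rw [riemDist_eq, riemDist_eq]
  exact Manifold.riemannianEDist_comm

lemma riemDist_le_path (G : E3 → Bil) {γ : ℝ → E3} {a b : ℝ} (hab : a ≤ b)
    (hγ : ContDiffOn ℝ 1 γ (Icc a b)) :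
    riemDist G (γ a) (γ b) ≤
      ∫⁻ t in Icc a b, ENNReal.ofReal (Real.sqrt (G (γ t) (deriv γ t) (deriv γ t))) := by
  letI := enormOf G
  haveI := enormSMul G
  rw [riemDist_eq, ← pathELength_eq]
  exact Manifold.riemannianEDist_le_pathELength hγ.contMDiffOn rfl rfl hab

lemma riemDist_le_of_deriv (G : E3 → Bil) {γ : ℝ → E3} {a b : ℝ} (hab : a ≤ b)
    (hγ : ContDiffOn ℝ 1 γ (Icc a b)) {S S' : ℝ → ℝ} (hS : ∀ t ∈ Icc a b, HasDerivAt S (S' t) t)
    (hS' : ContinuousOn S' (Icc a b)) (h0 : ∀ t ∈ Icc a b, 0 ≤ S' t)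
    (hG : ∀ t ∈ Icc a b, G (γ t) (deriv γ t) (deriv γ t) ≤ S' t ^ 2) :
    riemDist G (γ a) (γ b) ≤ ENNReal.ofReal (S b - S a) := by
  refine (riemDist_le_path G hab hγ).trans ?_
  have hint : IntegrableOn S' (Icc a b) := hS'.integrableOn_Icc
  have h1 : ∫ t in Icc a b, S' t = S b - S a := by
    rw [integral_Icc_eq_integral_Ioc, ← intervalIntegral.integral_of_le hab]
    refine intervalIntegral.integral_eq_sub_of_hasDerivAt (fun t ht => hS t ?_) ?_
    · rwa [uIcc_of_le hab] at ht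
    · exact (intervalIntegrable_iff_integrableOn_Icc_of_le hab).2 hint
  rw [← h1, ofReal_integral_eq_lintegral_ofReal hint
    ((ae_restrict_iff' measurableSet_Icc).2 (Eventually.of_forall h0))]
  refine setLIntegral_mono' measurableSet_Icc fun t ht => ENNReal.ofReal_le_ofReal ?_
  exact Real.sqrt_le_iff.2 ⟨h0 t ht, hG t ht⟩

lemma sub_le_riemDist (G : E3 → Bil) {f : E3 → ℝ} (hf : ContDiff ℝ 1 f)
    (hG : ∀ y v, (fderiv ℝ f y v) ^ 2 ≤ G y v v) (x y : E3) :
    ENNReal.ofReal (f y - f x) ≤ riemDist G x y := by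
  refine le_iInf fun γ => le_iInf fun hγ => le_iInf fun h0 => le_iInf fun h1 => ?_
  have hc : ContDiffOn ℝ 1 (f ∘ γ) (Icc 0 1) := hf.comp_contDiffOn hγ
  have h2 := enorm_sub_le_lintegral_deriv_of_contDiffOn_Icc hc zero_le_one
  simp only [comp_apply, h0, h1] at h2
  refine le_trans ?_ (h2.trans ?_)
  · rw [Real.enorm_eq_ofReal_abs]
    exact ENNReal.ofReal_le_ofReal (le_abs_self _)
  · rw [← restrict_Ioo_eq_restrict_Icc]
    refine setLIntegral_mono' measurableSet_Ioo fun t ht => ?_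
    have hd : DifferentiableAt ℝ γ t :=
      (hγ.differentiableOn one_ne_zero).differentiableAt (Icc_mem_nhds ht.1 ht.2)
    have h3 : deriv (f ∘ γ) t = fderiv ℝ f (γ t) (deriv γ t) :=
      (((hf.differentiable one_ne_zero) (γ t)).hasFDerivAt.comp_hasDerivAt t hd.hasDerivAt).deriv
    rw [h3, Real.enorm_eq_ofReal_abs]
    exact ENNReal.ofReal_le_ofReal (Real.abs_le_sqrt (hG _ _))

lemma riemDist_translate_le (G : E3 → Bil) (w : E3) (hw : ∀ x, G (x + w) = G x) (x y : E3) :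
    riemDist G (x + w) (y + w) ≤ riemDist G x y := by
  refine le_iInf fun γ => le_iInf fun hγ => le_iInf fun h0 => le_iInf fun h1 => ?_
  have h2 := riemDist_le_path G (γ := fun t => γ t + w) zero_le_one (hγ.add contDiffOn_const)
  simp only [h0, h1, hw, deriv_add_const] at h2
  exact h2

lemma riemDist_translate (G : E3 → Bil) (hper : ∀ x (k : Z3), G (x + cv k) = G x) (k : Z3)
    (x y : E3) : riemDist G (x + cv k) (y + cv k) = riemDist G x y := by
  refine le_antisymm (riemDist_translate_le G _ (fun x => hper x k) x y) ?_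
  have := riemDist_translate_le G (cv (-k)) (fun x => hper x (-k)) (x + cv k) (y + cv k)
  simpa [cv_neg] using this

lemma exists_bounds (G : E3 → Bil) (hc : Continuous G) (hpos : ∀ x v, v ≠ 0 → 0 < G x v v)
    (hper : ∀ x (k : Z3), G (x + cv k) = G x) :
    ∃ m M : ℝ, 0 < m ∧ 0 < M ∧ ∀ x v, (m * ‖v‖) ^ 2 ≤ G x v v ∧ G x v v ≤ (M * ‖v‖) ^ 2 := by
  have hK : IsCompact (Metric.closedBall (0 : E3) 1 ×ˢ Metric.sphere (0 : E3) 1) :=
    (isCompact_closedBall _ _).prod (isCompact_sphere _ _)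
  have hne : (Metric.closedBall (0 : E3) 1 ×ˢ Metric.sphere (0 : E3) 1).Nonempty :=
    ⟨(0, fun _ => 1), by simp, by simp⟩
  have hcont : Continuous fun p : E3 × E3 => G p.1 p.2 p.2 := by fun_prop
  obtain ⟨p, hp, hmin⟩ := hK.exists_isMinOn hne hcont.continuousOn
  obtain ⟨q, hq, hmax⟩ := hK.exists_isMaxOn hne hcont.continuousOn
  have hp0 : 0 < G p.1 p.2 p.2 := hpos _ _ (by
    intro h; have := hp.2; simp [h] at this)
  have hq0 : 0 < G q.1 q.2 q.2 := hpos _ _ (by
    intro h; have := hq.2; simp [h] at this)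
  refine ⟨Real.sqrt (G p.1 p.2 p.2), Real.sqrt (G q.1 q.2 q.2), Real.sqrt_pos.2 hp0,
    Real.sqrt_pos.2 hq0, fun x v => ?_⟩
  rcases eq_or_ne v 0 with rfl | hv
  · simp
  have hn : 0 < ‖v‖ := norm_pos_iff.2 hv
  have hx : G x = G (x - cv (fl x)) := by
    rw [← hper (x - cv (fl x)) (fl x), sub_add_cancel]
  have hmem : (x - cv (fl x), ‖v‖⁻¹ • v) ∈
      Metric.closedBall (0 : E3) 1 ×ˢ Metric.sphere (0 : E3) 1 := by
    refine ⟨by simpa using norm_sub_fl x, ?_⟩
    simp [norm_smul, hn.ne']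
  have h1 : G p.1 p.2 p.2 ≤ G (x - cv (fl x)) (‖v‖⁻¹ • v) (‖v‖⁻¹ • v) := hmin hmem
  have h2 : G (x - cv (fl x)) (‖v‖⁻¹ • v) (‖v‖⁻¹ • v) ≤ G q.1 q.2 q.2 := hmax hmem
  have h3 : G x v v = ‖v‖ ^ 2 * G (x - cv (fl x)) (‖v‖⁻¹ • v) (‖v‖⁻¹ • v) := by
    rw [← hx]
    simp only [map_smul, smul_apply, smul_eq_mul]
    field_simp
  rw [mul_pow, mul_pow, Real.sq_sqrt hp0.le, Real.sq_sqrt hq0.le, h3]
  constructor <;> nlinarith [sq_nonneg ‖v‖]

lemma riemDist_le_norm (G : E3 → Bil) {M : ℝ} (hM : 0 ≤ M)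
    (h : ∀ x v, G x v v ≤ (M * ‖v‖) ^ 2) (x y : E3) :
    riemDist G x y ≤ ENNReal.ofReal (M * ‖y - x‖) := by
  have hd : ∀ t : ℝ, HasDerivAt (fun t : ℝ => x + t • (y - x)) (y - x) t := fun t => by
    simpa using ((hasDerivAt_id t).smul_const (y - x)).const_add x
  have := riemDist_le_of_deriv G (γ := fun t : ℝ => x + t • (y - x)) zero_le_one
    (by fun_prop) (S := fun t => t * (M * ‖y - x‖)) (S' := fun _ => M * ‖y - x‖)
    (fun t _ => by simpa using (hasDerivAt_id t).mul_const (M * ‖y - x‖)) continuousOn_const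
    (fun _ _ => by positivity) (fun t _ => by rw [(hd t).deriv]; exact h _ _)
  simpa using this

lemma norm_le_riemDist (G : E3 → Bil) {m : ℝ} (hm : 0 < m)
    (h : ∀ x v, (m * ‖v‖) ^ 2 ≤ G x v v) (x y : E3) :
    ENNReal.ofReal (m * ‖y - x‖) ≤ riemDist G x y := by
  obtain ⟨i, hi⟩ : ∃ i, ‖y - x‖ = |y i - x i| := by
    obtain ⟨i, -, hi⟩ := Finset.exists_max_image Finset.univ (fun i => |y i - x i|)
      Finset.univ_nonempty
    refine ⟨i, le_antisymm ?_ ?_⟩
    · exact (pi_norm_le_iff_of_nonneg (abs_nonneg _)).2 fun j => hi j (Finset.mem_univ j)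
    · exact norm_le_pi_norm (y - x) i
  have key : ∀ s : ℝ, |s| = m → ENNReal.ofReal (s * y i - s * x i) ≤ riemDist G x y := by
    intro s hs
    refine sub_le_riemDist G (f := fun z => s * z i) (by fun_prop) (fun z v => ?_) x y
    have hd : HasFDerivAt (fun z : E3 => s * z i)
        (s • ContinuousLinearMap.proj (R := ℝ) (φ := fun _ : Fin 3 => ℝ) i) z :=
      (ContinuousLinearMap.proj (R := ℝ) (φ := fun _ : Fin 3 => ℝ) i).hasFDerivAt.const_mul s
    rw [hd.fderiv]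
    refine le_trans ?_ (h z v)
    simp only [smul_apply, ContinuousLinearMap.proj_apply, smul_eq_mul]
    rw [sq_le_sq, abs_mul, hs, abs_of_nonneg (by positivity : 0 ≤ m * ‖v‖)]
    gcongr
    exact norm_le_pi_norm v i
  rw [hi]
  rcases le_total (x i) (y i) with h1 | h1
  · have := key m (abs_of_pos hm)
    rwa [abs_of_nonneg (sub_nonneg.2 h1), mul_sub]
  · have := key (-m) (by rw [abs_neg, abs_of_pos hm])
    rw [abs_of_nonpos (sub_nonpos.2 h1)]
    convert this using 2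
    ring

end Pool.Agent.MP_4d76c1_gt

end

section

open Set Filter Topology Function
open scoped ContDiff

namespace Pool.Agent.MP_4d76c1_gt

/-- coordinate projection -/
noncomputable abbrev pr (r : Fin 3) : E3 →L[ℝ] ℝ :=
  ContinuousLinearMap.proj (R := ℝ) (φ := fun _ : Fin 3 => ℝ) r

/-- local model of the metric -/
noncomputable def Qm (p : E3 →L[ℝ] ℝ) (V : E3) (μ : ℝ) : Bil :=
  p.smulRight p + ∑ r, (pr r - V r • p).smulRight (pr r - V r • p) +
    μ • ∑ r, (pr r).smulRight (pr r)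

lemma Qm_apply (p : E3 →L[ℝ] ℝ) (V : E3) (μ : ℝ) (v w : E3) :
    Qm p V μ v w = p v * p w + ∑ r, (v r - V r * p v) * (w r - V r * p w) + μ * ∑ r, v r * w r := by
  simp [Qm, sum_apply]

lemma Qm_symm (p : E3 →L[ℝ] ℝ) (V : E3) (μ : ℝ) (v w : E3) : Qm p V μ v w = Qm p V μ w v := by
  simp only [Qm_apply, mul_comm]

lemma sum_sq_pos {v : E3} (hv : v ≠ 0) : 0 < ∑ r, v r * v r := by
  obtain ⟨r, hr⟩ := Function.ne_iff.1 hv
  exact Finset.sum_pos' (fun s _ => mul_self_nonneg _)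
    ⟨r, Finset.mem_univ r, mul_self_pos.2 hr⟩

lemma Qm_lower (p : E3 →L[ℝ] ℝ) (V : E3) {μ : ℝ} (hμ : 0 ≤ μ) (v : E3) :
    p v ^ 2 ≤ Qm p V μ v v := by
  rw [Qm_apply]
  have h1 : 0 ≤ ∑ r, (v r - V r * p v) * (v r - V r * p v) :=
    Finset.sum_nonneg fun s _ => mul_self_nonneg _
  have h2 : 0 ≤ μ * ∑ r, v r * v r := mul_nonneg hμ (Finset.sum_nonneg fun s _ => mul_self_nonneg _)
  nlinarith

lemma Qm_strict (p : E3 →L[ℝ] ℝ) (V : E3) {μ : ℝ} (hμ : 0 < μ) {v : E3} (hv : v ≠ 0) :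
    p v ^ 2 < Qm p V μ v v := by
  rw [Qm_apply]
  have h1 : 0 ≤ ∑ r, (v r - V r * p v) * (v r - V r * p v) :=
    Finset.sum_nonneg fun s _ => mul_self_nonneg _
  have h2 : 0 < μ * ∑ r, v r * v r := mul_pos hμ (sum_sq_pos hv)
  nlinarith

lemma Qm_pos (p : E3 →L[ℝ] ℝ) (V : E3) {μ : ℝ} (hμ : 0 ≤ μ) {v : E3} (hv : v ≠ 0) :
    0 < Qm p V μ v v := by
  rcases eq_or_ne (p v) 0 with h | h
  · rw [Qm_apply, h]
    have h2 : 0 ≤ μ * ∑ r, v r * v r :=
      mul_nonneg hμ (Finset.sum_nonneg fun s _ => mul_self_nonneg _)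
    have := sum_sq_pos hv
    simp only [mul_zero, sub_zero, zero_add]
    linarith
  · exact lt_of_lt_of_le (by positivity) (Qm_lower p V hμ v)

lemma Qm_tangent (p : E3 →L[ℝ] ℝ) (V : E3) {v : E3} (hv : v = p v • V) :
    Qm p V 0 v v = p v ^ 2 := by
  rw [Qm_apply]
  have : ∀ r, v r - V r * p v = 0 := fun r => by
    have := congrFun hv r
    simp only [Pi.smul_apply, smul_eq_mul] at this
    linarith
  simp [this, sq]

lemma Qm_contDiffAt {p : E3 → E3 →L[ℝ] ℝ} {V : E3 → E3} {μ : E3 → ℝ} {x : E3}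
    (hp : ContDiffAt ℝ ∞ p x) (hV : ContDiffAt ℝ ∞ V x) (hμ : ContDiffAt ℝ ∞ μ x) :
    ContDiffAt ℝ ∞ (fun y => Qm (p y) (V y) (μ y)) x := by
  unfold Qm
  refine ((hp.smulRight hp).add (ContDiffAt.sum fun r _ => ?_)).add (hμ.smul contDiffAt_const)
  have h : ContDiffAt ℝ ∞ (fun y => pr r - V y r • p y) x :=
    contDiffAt_const.sub ((contDiffAt_pi.1 hV r).smul hp)
  exact h.smulRight h

lemma contDiff_dot (l : Sgn) : ContDiff ℝ ∞ (dot l) := by
  unfold dot; fun_prop

lemma fderiv_shift {F : Type*} [NormedAddCommGroup F] [NormedSpace ℝ F] (f : E3 → F) (w y : E3)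
    (C : F) : fderiv ℝ (fun z => f (z - w) + C) y = fderiv ℝ f (y - w) := by
  rw [fderiv_add_const, fderiv_comp_sub]

lemma fderiv_coord (s : ℝ) (i : Fin 3) (y v : E3) :
    fderiv ℝ (fun x : E3 => s * x i) y v = s * v i := by
  have hd : HasFDerivAt (fun z : E3 => s * z i) (s • pr i) y := (pr i).hasFDerivAt.const_mul s
  rw [hd.fderiv]; rfl

lemma abs_sz_mul (b : Bool) (x : ℝ) : |(sz b : ℝ) * x| = |x| := by
  cases b <;> simp [sz]

lemma contDiff_fderiv {f : E3 → ℝ} (hf : ContDiff ℝ ∞ f) : ContDiff ℝ ∞ (fderiv ℝ f) :=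
  hf.fderiv_right (m := ∞) le_rfl

namespace Chan

variable {Λ : Type} [Finite Λ] (c : Chan Λ)

/-- models of the calibrating functions along the base curves -/
def Fm (l : Sgn) : Λ ⊕ Fin 3 → E3 → ℝ
  | Sum.inl a => c.F a l
  | Sum.inr i => fun x => (sz (l i) : ℝ) * x i

omit [Finite Λ] in
lemma Fm_smooth (l : Sgn) (b : Λ ⊕ Fin 3) : ContDiff ℝ ∞ (c.Fm l b) := by
  rcases b with a | i
  · exact c.F_smooth a l
  · unfold Fm; fun_prop

lemma line_model (l : Sgn) {i : Fin 3} {k k' : Z3} (e1 : k (i + 1) = k' (i + 1))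
    (e2 : k (i + 2) = k' (i + 2)) (z : E3) :
    (sz (l i) : ℝ) * (z - cv k') i + dot l (cv k') = (sz (l i) : ℝ) * (z - cv k) i + dot l (cv k) := by
  have : k' = k + ev i (k' i - k i) := by
    ext s
    rcases fin3_cases i s with rfl | rfl | rfl
    · simp [ev]
    · simp [ev, fin3_ne1, e1]
    · simp [ev, fin3_ne2, e2]
  rw [this, cv_add, dot_add, dot_ev]
  simp [ev]; ring

lemma exists_u (l : Sgn) : ∃ u : E3 → ℝ, ContDiff ℝ ∞ u ∧
    (∀ x k, u (x + cv k) = u x + dot l (cv k)) ∧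
    ∀ b k y, y - cv k ∈ c.Γ b → u =ᶠ[𝓝 y] fun z => c.Fm l b (z - cv k) + dot l (cv k) := by
  refine Exists.elim (periodic_glue (F := ℝ) (I := (Λ ⊕ Fin 3) × Z3) (fun y => 𝓝 y)
    (fun _ => le_rfl) (fun y k => (continuous_id.sub continuous_const).tendsto y)
    (fun a => {y | y - cv a.2 ∈ c.Γ a.1})
    (fun a z => {c.Fm l a.1 (z - cv a.2) + dot l (cv a.2) - dot l z})
    (fun _ _ => convex_singleton _)
    (fun k a => ⟨(a.1, a.2 - k), fun y hy => by
      show y - cv k - cv (a.2 - k) ∈ c.Γ a.1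
      rw [cv_sub, sub_sub_sub_cancel_right]; exact hy, fun z => by
      rw [singleton_subset_singleton]
      simp only [cv_sub, sub_sub_sub_cancel_right, dot_sub]; ring⟩) ?_) ?_
  rotate_left
  · rintro g ⟨hg, hper, hgerm⟩
    refine ⟨fun z => g z + dot l z, hg.add (contDiff_dot l), fun x k => ?_, fun b k y hy => ?_⟩
    · simp only [hper, dot_add]; ring
    · filter_upwards [hgerm (b, k) y hy] with z hz
      rw [mem_singleton_iff] at hz
      rw [hz]; ring
  intro x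
  have hsm : ∀ b k, ContDiff ℝ ∞ fun z => c.Fm l b (z - cv k) + dot l (cv k) - dot l z :=
    fun b k => (((c.Fm_smooth l b).comp (contDiff_id.sub contDiff_const)).add
      contDiff_const).sub (contDiff_dot l)
  by_cases hx : x ∈ c.K
  · obtain ⟨b, k, hb⟩ := hx
    refine ⟨fun z => c.Fm l b (z - cv k) + dot l (cv k) - dot l z, ?_⟩
    rcases b with a | i
    · filter_upwards [c.loc_chan hb] with y hy
      refine ⟨(hsm _ _).contDiffAt, ?_⟩
      rintro ⟨b, k'⟩ h
      obtain ⟨rfl, rfl⟩ := hy b k' h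
      exact Eventually.of_forall fun z => rfl
    · filter_upwards [c.loc_line (fun a σ => c.germ a σ l) hb] with y hy
      refine ⟨(hsm _ _).contDiffAt, ?_⟩
      rintro ⟨b | j, k'⟩ h
      · obtain ⟨r, hr, hyr⟩ := c.mem_Γ_inl.1 h
        obtain ⟨σ, h1, rfl, e1, e2⟩ := hy.2 b k' r hr hyr
        have ht : Tendsto (fun z => z - cv k') (𝓝 y) (𝓝 (c.γ b r)) := by
          have : Tendsto (fun z => z - cv k') (𝓝 y) (𝓝 (y - cv k')) :=
            (continuous_id.sub (continuous_const (y := cv k'))).tendsto y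
          rwa [show y - cv k' = c.γ b r by rw [hyr, add_sub_cancel_right]] at this
        filter_upwards [ht.eventually h1] with z hz
        rw [mem_singleton_iff]
        simp only [Fm]
        rw [hz, ← line_model l e1 e2 z, cv_add, dot_add, sub_sub]
        ring
      · obtain ⟨rfl, e1, e2⟩ := hy.1 j k' h
        refine Eventually.of_forall fun z => ?_
        rw [mem_singleton_iff]
        simp only [Fm]
        rw [line_model l e1 e2 z]
  · refine ⟨fun _ => 0, ?_⟩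
    filter_upwards [c.loc_off hx] with y hy
    exact ⟨contDiffAt_const, fun a ha => absurd ⟨a.1, a.2, ha⟩ hy⟩

omit [Finite Λ] in
lemma K_per (y : E3) (k : Z3) : y - cv k ∈ c.K ↔ y ∈ c.K := by
  constructor
  · rintro ⟨b, k', h⟩
    exact ⟨b, k + k', by rwa [cv_add, ← sub_sub]⟩
  · rintro ⟨b, k', h⟩
    exact ⟨b, k' - k, by rwa [cv_sub, sub_sub_sub_cancel_right]⟩

/-- the convex conditions on the metric -/
def Cond (u : Sgn → E3 → ℝ) (y : E3) : Set Bil :=
  {Q | (∀ v w, Q v w = Q w v) ∧ (∀ v, v ≠ 0 → 0 < Q v v) ∧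
    (∀ l v, fderiv ℝ (u l) y v ^ 2 ≤ Q v v) ∧
    (y ∉ c.K → ∀ l v, v ≠ 0 → fderiv ℝ (u l) y v ^ 2 < Q v v) ∧
    (∀ a k, ∀ r ∈ Ioo (0 : ℝ) 1, y = c.γ a r + cv k → Q (deriv (c.γ a) r) (deriv (c.γ a) r) ≤
      fderiv ℝ (c.sig a) (c.γ a r) (deriv (c.γ a) r) ^ 2) ∧
    ∀ i k, OnL i (y - cv k) → Q (Pi.single i 1) (Pi.single i 1) ≤ 1}

omit [Finite Λ] in
lemma convex_Cond (u : Sgn → E3 → ℝ) (y : E3) : Convex ℝ (c.Cond u y) := by
  intro P hP Q hQ s t hs ht hst
  obtain ⟨p1, p2, p3, p4, p5, p6⟩ := hP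
  obtain ⟨q1, q2, q3, q4, q5, q6⟩ := hQ
  have e : ∀ v w, (s • P + t • Q) v w = s * P v w + t * Q v w := fun v w => by simp
  have hle : ∀ {A B C : ℝ}, C ≤ A → C ≤ B → C ≤ s * A + t * B := fun {A B C} h1 h2 =>
    (convex_Ici C) h1 h2 hs ht hst
  have hlt : ∀ {A B C : ℝ}, C < A → C < B → C < s * A + t * B := fun {A B C} h1 h2 =>
    (convex_Ioi C) h1 h2 hs ht hst
  have hge : ∀ {A B C : ℝ}, A ≤ C → B ≤ C → s * A + t * B ≤ C := fun {A B C} h1 h2 =>
    (convex_Iic C) h1 h2 hs ht hst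
  refine ⟨fun v w => ?_, fun v hv => ?_, fun l v => ?_, fun hy l v hv => ?_,
    fun a k r hr h => ?_, fun i k h => ?_⟩ <;> rw [e]
  · rw [e, p1, q1]
  · exact hlt (p2 v hv) (q2 v hv)
  · exact hle (p3 l v) (q3 l v)
  · exact hlt (p4 hy l v hv) (q4 hy l v hv)
  · exact hge (p5 a k r hr h) (q5 a k r hr h)
  · exact hge (p6 i k h) (q6 i k h)

omit [Finite Λ] in
lemma mem_Cond {u : Sgn → E3 → ℝ} {y : E3} {p : E3 →L[ℝ] ℝ} {V : E3} {μ : ℝ} (hμ : 0 ≤ μ)
    (hμ' : y ∉ c.K ↔ μ ≠ 0) (hp : ∀ l v, |fderiv ℝ (u l) y v| ≤ |p v|)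
    (h1 : ∀ a k, ∀ r ∈ Ioo (0 : ℝ) 1, y = c.γ a r + cv k →
      deriv (c.γ a) r = p (deriv (c.γ a) r) • V ∧
        |p (deriv (c.γ a) r)| ≤ |fderiv ℝ (c.sig a) (c.γ a r) (deriv (c.γ a) r)|)
    (h2 : ∀ i k, OnL i (y - cv k) → V = Pi.single i 1 ∧ p (Pi.single i 1) = 1) :
    Qm p V μ ∈ c.Cond u y := by
  have h0 : y ∈ c.K → μ = 0 := fun h => by
    by_contra h'; exact hμ'.2 h' h
  refine ⟨Qm_symm p V μ, fun v hv => Qm_pos p V hμ hv, fun l v => ?_, fun hy l v hv => ?_,
    fun a k r hr h => ?_, fun i k h => ?_⟩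
  · exact (sq_le_sq.2 (hp l v)).trans (Qm_lower p V hμ v)
  · exact (sq_le_sq.2 (hp l v)).trans_lt (Qm_strict p V (lt_of_le_of_ne hμ (hμ'.1 hy).symm) hv)
  · rw [h0 ⟨Sum.inl a, k, c.mem_Γ_inl.2 ⟨r, hr, h⟩⟩, Qm_tangent p V (h1 a k r hr h).1]
    exact sq_le_sq.2 (h1 a k r hr h).2
  · obtain ⟨e1, e2⟩ := h2 i k h
    rw [h0 ⟨Sum.inr i, k, h⟩, Qm_tangent p V (by rw [e2, one_smul, e1]), e2]
    norm_num

lemma exists_G {u : Sgn → E3 → ℝ} (hu : ∀ l, ContDiff ℝ ∞ (u l))
    (hper : ∀ l x k, u l (x + cv k) = u l x + dot l (cv k))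
    (hgerm : ∀ l b k y, y - cv k ∈ c.Γ b →
      u l =ᶠ[𝓝 y] fun z => c.Fm l b (z - cv k) + dot l (cv k)) :
    ∃ G : E3 → Bil, ContDiff ℝ ∞ G ∧ (∀ x k, G (x + cv k) = G x) ∧ ∀ y, G y ∈ c.Cond u y := by
  obtain ⟨μ, hμs, hμ, hμr⟩ := c.isClosed_K.isOpen_compl.exists_contDiff_support_eq (n := ⊤)
  have hμ0 : ∀ y, 0 ≤ μ y := fun y => (hμr (mem_range_self y)).1
  have hμK : ∀ y, y ∉ c.K ↔ μ y ≠ 0 := fun y => by
    rw [← mem_support, hμs]; rfl
  have hdu : ∀ l y (k : Z3), fderiv ℝ (u l) (y - cv k) = fderiv ℝ (u l) y := fun l y k => by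
    rw [← fderiv_shift (u l) (cv k) y (dot l (cv k))]
    congr 1
    ext z
    rw [← hper, sub_add_cancel]
  refine Exists.elim (periodic_glue (F := Bil) (I := Unit) (fun y => pure y)
    (fun y => pure_le_nhds y) (fun y k => tendsto_pure_pure _ y) (fun _ => univ)
    (fun _ z => c.Cond u z) (fun _ z => c.convex_Cond u z)
    (fun k a => ⟨a, fun _ _ => mem_univ _, fun z Q hQ => by
      obtain ⟨p1, p2, p3, p4, p5, p6⟩ := hQ
      simp only [hdu, c.K_per] at p3 p4
      refine ⟨p1, p2, p3, p4, fun a k' r hr h => p5 a (k' - k) r hr ?_,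
        fun i k' h => p6 i (k' - k) ?_⟩
      · rw [h, cv_sub]; abel
      · rwa [cv_sub, sub_sub_sub_cancel_right]⟩) ?_) ?_
  rotate_left
  · rintro G ⟨hG, hGper, hGc⟩
    exact ⟨G, hG, hGper, fun y => hGc () y (mem_univ y)⟩
  intro x
  simp only [eventually_pure, mem_univ, true_imp_iff, forall_const]
  by_cases hx : x ∈ c.K
  · obtain ⟨a | i, k, hb⟩ := hx
    · let S' : ℝ → ℝ := fun r => fderiv ℝ (c.sig a) (c.γ a r) (deriv (c.γ a) r)
      let V : ℝ → E3 := fun r => (S' r)⁻¹ • deriv (c.γ a) r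
      have hV : ∀ r ∈ Ioo (0 : ℝ) 1, ContDiffAt ℝ ∞ V r := fun r hr => by
        have h1 := c.γ_smooth a r hr
        have h2 : ContDiffAt ℝ ∞ (deriv (c.γ a)) r := by
          have := (h1.fderiv_right (m := ∞) le_rfl).clm_apply (contDiffAt_const (c := (1 : ℝ)))
          exact this
        have h3 : ContDiffAt ℝ ∞ S' r :=
          (((contDiff_fderiv (c.sig_smooth a)).contDiffAt).comp r h1).clm_apply h2
        exact (h3.inv (c.dS a r hr).ne').smul h2
      refine ⟨fun y => Qm (fderiv ℝ (c.sig a) (y - cv k)) (V (c.π a (y - cv k))) (μ y), ?_⟩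
      have hπ : ContDiff ℝ ∞ fun y => c.π a (y - cv k) :=
        (c.π_smooth a).comp (contDiff_id.sub contDiff_const)
      have hπx : ∀ᶠ y in 𝓝 x, c.π a (y - cv k) ∈ Ioo (0 : ℝ) 1 := by
        refine hπ.continuous.continuousAt.eventually (isOpen_Ioo.mem_nhds ?_)
        obtain ⟨r, hr, h⟩ := hb
        show c.π a (x - cv k) ∈ _
        rw [← h, c.π_γ a r hr]; exact hr
      have hge : ∀ᶠ y in 𝓝 x, ∀ l, u l =ᶠ[𝓝 y]
          fun z => c.Fm l (Sum.inl a) (z - cv k) + dot l (cv k) :=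
        eventually_all.2 fun l => (hgerm l _ k x hb).eventuallyEq_nhds
      filter_upwards [c.loc_chan hb, hπx, hge] with y hy1 hy2 hy3
      refine ⟨Qm_contDiffAt ((contDiff_fderiv (c.sig_smooth a)).comp
        (contDiff_id.sub contDiff_const)).contDiffAt (ContDiffAt.comp (g := V) y (hV _ hy2) hπ.contDiffAt)
        hμ.contDiffAt, c.mem_Cond (hμ0 y) (hμK y) (fun l v => ?_) (fun b k' r hr h => ?_)
        fun i k' h => ?_⟩
      · rw [(hy3 l).fderiv_eq, fderiv_shift]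
        exact c.dF a l _ v
      · obtain ⟨hb', rfl⟩ := hy1 (Sum.inl b) k' (c.mem_Γ_inl.2 ⟨r, hr, h⟩)
        obtain rfl : b = a := Sum.inl.inj hb'
        rw [h, add_sub_cancel_right, c.π_γ b r hr]
        refine ⟨?_, le_rfl⟩
        simp only [V, S', smul_smul]
        rw [mul_inv_cancel₀ (c.dS b r hr).ne', one_smul]
      · exact absurd (hy1 (Sum.inr i) k' h).1 (by simp)
    · refine ⟨fun y => Qm (pr i) (c.W i (y - cv k)) (μ y), ?_⟩
      have hge : ∀ᶠ y in 𝓝 x, ∀ l, u l =ᶠ[𝓝 y]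
          fun z => c.Fm l (Sum.inr i) (z - cv k) + dot l (cv k) :=
        eventually_all.2 fun l => (hgerm l _ k x hb).eventuallyEq_nhds
      filter_upwards [c.loc_line (fun a σ => (c.tangent a σ).and (c.germ a σ fun _ => true)) hb,
        hge] with y hy1 hy3
      refine ⟨Qm_contDiffAt contDiffAt_const ((c.W_smooth i).comp
        (contDiff_id.sub contDiff_const)).contDiffAt hμ.contDiffAt,
        c.mem_Cond (hμ0 y) (hμK y) (fun l v => ?_) (fun b k' r hr h => ?_) fun j k' h => ?_⟩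
      · rw [(hy3 l).fderiv_eq, fderiv_shift]
        simp only [Fm]
        rw [fderiv_coord, abs_sz_mul]; rfl
      · obtain ⟨σ, ⟨h1, h2⟩, rfl, e1, e2⟩ := hy1.2 b k' r hr h
        constructor
        · rw [c.W_inv _ (y - cv k) (c.γ b r - cv (c.κ b σ))]
          · exact h1
          · simp only [h, e1, Pi.sub_apply, Pi.add_apply, cv_apply, Int.cast_add]; ring
          · simp only [h, e2, Pi.sub_apply, Pi.add_apply, cv_apply, Int.cast_add]; ring
        · refine le_trans ?_ (c.dF b (fun _ => true) _ _)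
          rw [h2.fderiv_eq, fderiv_shift (fun x : E3 => (sz true : ℝ) * x (c.typ b σ)),
            fderiv_coord, abs_sz_mul]
          rfl
      · obtain ⟨rfl, e1, e2⟩ := hy1.1 j k' h
        refine ⟨c.W_line _ _ ⟨?_, ?_⟩, by simp⟩
        · simpa [e1] using h.1
        · simpa [e2] using h.2
  · refine ⟨fun y => ∑ l, Qm (fderiv ℝ (u l) y) 0 1, ?_⟩
    filter_upwards [c.loc_off hx] with y hy
    refine ⟨ContDiffAt.sum fun l _ => Qm_contDiffAt (contDiff_fderiv (hu l)).contDiffAt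
      contDiffAt_const contDiffAt_const, ?_⟩
    have e : ∀ v w, (∑ l, Qm (fderiv ℝ (u l) y) 0 1) v w = ∑ l, Qm (fderiv ℝ (u l) y) 0 1 v w :=
      fun v w => by simp [sum_apply]
    have hle : ∀ l v, Qm (fderiv ℝ (u l) y) 0 1 v v ≤ ∑ l, Qm (fderiv ℝ (u l) y) 0 1 v v :=
      fun l v => Finset.single_le_sum (f := fun l => Qm (fderiv ℝ (u l) y) 0 1 v v)
        (fun l _ => (sq_nonneg _).trans (Qm_lower _ _ zero_le_one v)) (Finset.mem_univ l)
    refine ⟨fun v w => ?_, fun v hv => ?_, fun l v => ?_, fun _ l v hv => ?_,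
      fun a k r hr h => absurd ⟨Sum.inl a, k, c.mem_Γ_inl.2 ⟨r, hr, h⟩⟩ hy,
      fun i k h => absurd ⟨Sum.inr i, k, h⟩ hy⟩ <;> rw [e]
    · rw [e]; exact Finset.sum_congr rfl fun l _ => Qm_symm _ _ _ _ _
    · exact (Qm_pos _ _ zero_le_one hv).trans_le (hle (fun _ => true) v)
    · exact (Qm_lower _ _ zero_le_one v).trans (hle l v)
    · exact (Qm_strict _ _ one_pos hv).trans_le (hle l v)

end Chan

end Pool.Agent.MP_4d76c1_gt

end

section

open Set Filter Topology Function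
open scoped ContDiff ENNReal

namespace Pool.Agent.MP_4d76c1_gt

lemma exists_perturb {G : E3 → Bil} (hG : Continuous G) {f : E3 → ℝ} (hf : ContDiff ℝ ∞ f)
    (hle : ∀ y v, fderiv ℝ f y v ^ 2 ≤ G y v v) {x : E3}
    (hx : ∀ᶠ y in 𝓝 x, ∀ v, v ≠ 0 → fderiv ℝ f y v ^ 2 < G y v v) :
    ∃ g : E3 → ℝ, ContDiff ℝ ∞ g ∧ (∀ y v, fderiv ℝ g y v ^ 2 ≤ G y v v) ∧ f x < g x ∧
      ∀ y, 1 ≤ ‖y - x‖ → g y = f y := by
  obtain ⟨φ, hφs, hφc, hφ, -, hφx⟩ := exists_contDiff_tsupport_subset (n := ⊤)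
    (Filter.inter_mem hx (Metric.ball_mem_nhds x one_pos))
  have hK : IsCompact (tsupport φ ×ˢ Metric.sphere (0 : E3) 1) :=
    hφc.isCompact.prod (isCompact_sphere _ _)
  have hdf := (contDiff_fderiv hf).continuous
  have hdφ := (contDiff_fderiv hφ).continuous
  have hev : ∀ᶠ η in 𝓝 (0 : ℝ), ∀ p ∈ tsupport φ ×ˢ Metric.sphere (0 : E3) 1,
      (fderiv ℝ f p.1 p.2 + η * fderiv ℝ φ p.1 p.2) ^ 2 < G p.1 p.2 p.2 := by
    refine hK.eventually_forall_of_forall_eventually fun p hp => ?_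
    have h1 : Continuous fun z : ℝ × E3 × E3 =>
      (fderiv ℝ f z.2.1 z.2.2 + z.1 * fderiv ℝ φ z.2.1 z.2.2) ^ 2 := by fun_prop
    have h2 : Continuous fun z : ℝ × E3 × E3 => G z.2.1 z.2.2 z.2.2 := by fun_prop
    refine (isOpen_lt h1 h2).mem_nhds ?_
    have hv : p.2 ≠ 0 := by
      intro h; have := hp.2; simp [h] at this
    simpa using (hφs hp.1).1 p.2 hv
  obtain ⟨η, hη, hη0⟩ := ((hev.filter_mono nhdsWithin_le_nhds).and
    (eventually_mem_nhdsWithin (s := Ioi (0 : ℝ)))).exists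
  have hd : ∀ y v, fderiv ℝ (fun y => f y + η * φ y) y v = fderiv ℝ f y v + η * fderiv ℝ φ y v :=
    fun y v => by
    have h1 := ((hf.differentiable (by simp)) y).hasFDerivAt
    have h2 := ((hφ.differentiable (by simp)) y).hasFDerivAt.const_mul η
    rw [(h1.fun_add h2).fderiv]; rfl
  refine ⟨fun y => f y + η * φ y, hf.add (contDiff_const.mul hφ), fun y v => ?_, ?_,
    fun y hy => ?_⟩
  · rw [hd]
    by_cases hy : y ∈ tsupport φ
    · rcases eq_or_ne v 0 with rfl | hv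
      · simp
      have hn : 0 < ‖v‖ := norm_pos_iff.2 hv
      have h1 := hη (y, ‖v‖⁻¹ • v) ⟨hy, by simp [norm_smul, hn.ne']⟩
      simp only [map_smul, smul_eq_mul, smul_apply] at h1
      have e1 : (fderiv ℝ f y v + η * fderiv ℝ φ y v) ^ 2 =
        ‖v‖ ^ 2 * (‖v‖⁻¹ * fderiv ℝ f y v + η * (‖v‖⁻¹ * fderiv ℝ φ y v)) ^ 2 := by field_simp
      have e2 : G y v v = ‖v‖ ^ 2 * (‖v‖⁻¹ * (‖v‖⁻¹ * G y v v)) := by field_simp
      rw [e1, e2]
      exact mul_le_mul_of_nonneg_left h1.le (sq_nonneg _)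
    · have : fderiv ℝ φ y = 0 := by
        by_contra h
        exact hy (support_fderiv_subset ℝ (mem_support.2 h))
      simpa [this] using hle y v
  · have : 0 < η := hη0
    simp [hφx, this]
  · have : φ y = 0 := by
      by_contra h
      have := (hφs (subset_tsupport _ (mem_support.2 h))).2
      rw [mem_ball_iff_norm] at this
      linarith
    simp [this]

namespace Chan

theorem main {Λ : Type} [Finite Λ] (c : Chan Λ) : ∃ G : E3 → Bil, ContDiff ℝ ∞ G ∧ (∀ x v w, G x v w = G x w v) ∧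
    (∀ x v, v ≠ 0 → 0 < G x v v) ∧ (∀ x k, G (x + cv k) = G x) ∧
    ∃ S : Set (ℝ → E3), S.Finite ∧ ∀ f : ℝ → E3,
      (∀ s t, riemDist G (f s) (f t) = ENNReal.ofReal |t - s|) →
      ∃ c₀ ∈ S, ∃ (a b : ℝ) (k : Z3), (a = 1 ∨ a = -1) ∧ ∀ t, f t = c₀ (a * t + b) + cv k := by
  choose u hu hper hgerm using c.exists_u
  obtain ⟨G, hG, hGper, hGc⟩ := c.exists_G hu hper hgerm
  have hpos : ∀ x v, v ≠ 0 → 0 < G x v v := fun x => (hGc x).2.1
  obtain ⟨m, M, hm, hM, hmM⟩ := exists_bounds G hG.continuous hpos hGper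
  have hup := riemDist_le_norm G hM.le fun x v => (hmM x v).2
  have hfin : ∀ x y, riemDist G x y ≠ ⊤ := fun x y => ne_top_of_le_ne_top ENNReal.ofReal_ne_top
    (hup x y)
  let D : E3 → E3 → ℝ := fun x y => (riemDist G x y).toReal
  have hDle : ∀ {x y : E3} {r : ℝ}, 0 ≤ r → riemDist G x y ≤ ENNReal.ofReal r → D x y ≤ r :=
    fun hr h => ENNReal.toReal_le_of_le_ofReal hr h
  have hDge : ∀ {x y : E3} {r : ℝ}, ENNReal.ofReal r ≤ riemDist G x y → r ≤ D x y :=
    fun {x y r} h => (ENNReal.ofReal_le_iff_le_toReal (hfin x y)).1 h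
  have hsymm : ∀ x y, D x y = D y x := fun x y => by simp only [D, riemDist_comm G x y]
  have htri : ∀ x y z, D x z ≤ D x y + D y z := fun x y z => by
    simp only [D]
    rw [← ENNReal.toReal_add (hfin _ _) (hfin _ _)]
    exact ENNReal.toReal_mono (ENNReal.add_ne_top.2 ⟨hfin _ _, hfin _ _⟩)
      (riemDist_triangle G x y z)
  have hupper : ∀ x y, D x y ≤ M * ‖y - x‖ := fun x y => hDle (by positivity) (hup x y)
  have hlower : ∀ x y, m * ‖y - x‖ ≤ D x y := fun x y =>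
    hDge (norm_le_riemDist G hm (fun x v => (hmM x v).1) x y)
  have hlip' : ∀ f : E3 → ℝ, ContDiff ℝ ∞ f → (∀ y v, fderiv ℝ f y v ^ 2 ≤ G y v v) →
      ∀ x y, f y - f x ≤ D x y := fun f hf h x y =>
    hDge (sub_le_riemDist G (hf.of_le (by simp)) h x y)
  have hlip : ∀ l x y, u l y - u l x ≤ D x y := fun l =>
    hlip' (u l) (hu l) fun y v => (hGc y).2.2.1 l v
  have hchan : ∀ a, ∀ r ∈ Ioo (0 : ℝ) 1, ∀ r' ∈ Ioo (0 : ℝ) 1, r ≤ r' →
      D (c.γ a r) (c.γ a r') ≤ c.sig a (c.γ a r') - c.sig a (c.γ a r) := by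
    intro a r hr r' hr' hrr
    have hsub : Icc r r' ⊆ Ioo 0 1 := fun t ht => ⟨hr.1.trans_le ht.1, ht.2.trans_lt hr'.2⟩
    have hS : ∀ t ∈ Icc r r', HasDerivAt (fun t => c.sig a (c.γ a t))
        (fderiv ℝ (c.sig a) (c.γ a t) (deriv (c.γ a) t)) t := fun t ht =>
      (((c.sig_smooth a).differentiable (by simp)) _).hasFDerivAt.comp_hasDerivAt t
        ((c.γ_smooth a t (hsub ht)).differentiableAt (by simp)).hasDerivAt
    have hmono : c.sig a (c.γ a r) ≤ c.sig a (c.γ a r') := by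
      refine (monotoneOn_of_deriv_nonneg (convex_Icc r r')
        (fun t ht => (hS t ht).continuousAt.continuousWithinAt)
        (fun t ht => (hS t (interior_subset ht)).differentiableAt.differentiableWithinAt)
        (fun t ht => ?_)) (left_mem_Icc.2 hrr) (right_mem_Icc.2 hrr) hrr
      rw [(hS t (interior_subset ht)).deriv]
      exact (c.dS a t (hsub (interior_subset ht))).le
    refine hDle (sub_nonneg.2 hmono) (riemDist_le_of_deriv G hrr
      (fun t ht => ((c.γ_smooth a t (hsub ht)).of_le (by simp)).contDiffWithinAt) hS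
      (fun t ht => ?_) (fun t ht => (c.dS a t (hsub ht)).le)
      fun t ht => (hGc _).2.2.2.2.1 a 0 t (hsub ht) (by simp))
    have h1 := c.γ_smooth a t (hsub ht)
    have h2 : ContDiffAt ℝ ∞ (deriv (c.γ a)) t := by
      have := (h1.fderiv_right (m := ∞) le_rfl).clm_apply (contDiffAt_const (c := (1 : ℝ)))
      exact this
    exact ((((contDiff_fderiv (c.sig_smooth a)).contDiffAt).comp t h1).clm_apply
      h2).continuousAt.continuousWithinAt
  have huγ : ∀ l a, ∀ r ∈ Ioo (0 : ℝ) 1, u l (c.γ a r) = c.F a l (c.γ a r) := fun l a r hr => by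
    have := (hgerm l (Sum.inl a) 0 (c.γ a r) (c.mem_Γ_inl.2 ⟨r, hr, by simp⟩)).eq_of_nhds
    simpa [Fm, dot] using this
  have hzc : ∀ l a σ, Cal (fun r => c.F a l (c.γ a r)) (fun r => c.sig a (c.γ a r)) σ →
      ∀ η > 0, ∃ τ τ' : ℤ, df D (u l) (bp (c.typ a (!σ)) + cv (c.κ a (!σ) + ev (c.typ a (!σ)) τ))
        (bp (c.typ a σ) + cv (c.κ a σ + ev (c.typ a σ) τ')) < η := by
    rintro l a σ ⟨C, hC⟩ η hη
    have hη' : 0 < η / (8 * M) := by positivity
    have hQ : ∀ σ : Bool, ∀ᶠ r in lf σ, 0 < (sz σ : ℝ) * (r - 1 / 2) := fun σ => by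
      cases σ
      · filter_upwards [Ioo_mem_nhdsGT (show (0 : ℝ) < 1 / 2 by norm_num)] with r hr
        simp only [sz]; push_cast; linarith [hr.2]
      · filter_upwards [Ioo_mem_nhdsLT (show (1 / 2 : ℝ) < 1 by norm_num)] with r hr
        simp only [sz]; push_cast; linarith [hr.1]
    obtain ⟨n, r, hr, -, -, h1, -, h2, -⟩ := c.approach a (!σ) (hQ _) hη' 0
    obtain ⟨n', r', hr', -, -, h1', -, h2', -⟩ := c.approach a σ (hQ _) hη' 0
    refine ⟨n, n', ?_⟩
    have key : df D (u l) (c.γ a r) (c.γ a r') ≤ 0 := by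
      unfold df
      rw [huγ l a r hr, huγ l a r' hr']
      have e1 := hC r hr
      have e2 := hC r' hr'
      simp only at e1 e2
      rw [e1, e2]
      cases σ
      · simp only [sz, Bool.not_false] at h1 h1' ⊢
        push_cast at h1 h1' ⊢
        have := hchan a r' hr' r hr (by linarith)
        rw [hsymm]; linarith
      · simp only [sz, Bool.not_true] at h1 h1' ⊢
        push_cast at h1 h1' ⊢
        have := hchan a r hr r' hr' (by linarith)
        linarith
    set x := bp (c.typ a (!σ)) + cv (c.κ a (!σ) + ev (c.typ a (!σ)) n)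
    set y := bp (c.typ a σ) + cv (c.κ a σ + ev (c.typ a σ) n')
    have t1 := htri x (c.γ a r) y
    have t2 := htri (c.γ a r) (c.γ a r') y
    have b1 := hupper x (c.γ a r)
    have b2 := hupper y (c.γ a r')
    have l1 := hlip l (c.γ a r) x
    have l2 := hlip l y (c.γ a r')
    rw [hsymm] at l1
    rw [hsymm (c.γ a r') y] at t2
    have c1 := mul_lt_mul_of_pos_left h2 hM
    have c2 := mul_lt_mul_of_pos_left h2' hM
    have e : M * (η / (8 * M)) = η / 8 := by field_simp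
    unfold df at key ⊢
    linarith
  have hD : MetData D u m M c.Γ :=
    { symm := hsymm
      tri := htri
      mpos := hm
      Mpos := hM
      lower := hlower
      upper := hupper
      per := fun x y k => by simp only [D, riemDist_translate G hGper]
      lip := hlip
      uper := hper
      axis := fun i n => by
        obtain ⟨s, hs, hsn⟩ : ∃ s : ℝ, s ^ 2 = 1 ∧ |(n : ℝ)| * s = n := by
          rcases abs_cases (n : ℝ) with h | h
          · exact ⟨1, by norm_num, by linarith⟩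
          · exact ⟨-1, by norm_num, by linarith⟩
        have hd : ∀ t : ℝ, HasDerivAt (fun t : ℝ => bp i + (t * s) • (Pi.single i 1 : E3))
            (s • (Pi.single i 1 : E3)) t := fun t => by
          simpa using (((hasDerivAt_id t).mul_const s).smul_const (Pi.single i 1 : E3)).const_add
            (bp i)
        have := riemDist_le_of_deriv G (γ := fun t : ℝ => bp i + (t * s) • (Pi.single i 1 : E3))
          (abs_nonneg (n : ℝ)) (by fun_prop) (S := fun t => t) (S' := fun _ => 1)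
          (fun t _ => hasDerivAt_id t) continuousOn_const (fun _ _ => zero_le_one)
          (fun t _ => by
            rw [(hd t).deriv]
            have h1 := (hGc (bp i + (t * s) • (Pi.single i 1 : E3))).2.2.2.2.2 i 0
              ⟨by simp [bp, fin3_ne1, fin3_ne3], by simp [bp, fin3_ne2]⟩
            simp only [map_smul, smul_apply, smul_eq_mul]
            rw [← mul_assoc, ← sq, hs]; linarith)
        refine hDle (abs_nonneg _) ?_
        convert this using 2
        · simp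
        · rw [hsn]; ext r; by_cases hr : r = i
          · subst hr; simp [ev]
          · simp [ev, hr]
        · simp
      hom := fun l i j hij η hη => by
        obtain ⟨a, σ, e1, e2, e3, hcal⟩ := c.hom l i j hij
        obtain ⟨τ, τ', h⟩ := hzc l a σ hcal η hη
        rw [e1, e2, e3] at h
        refine ⟨τ, τ', ?_⟩
        unfold df at h ⊢
        have e4 : bp i + cv (c.κ a (!σ) + ev i τ) = bp i + cv (ev i τ) + cv (c.κ a (!σ)) := by
          simp only [cv_add]; abel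
        have e5 : bp i + cv (c.κ a (!σ) + ev j (sz (l j)) + ev i τ') =
            bp i + cv (ev j (sz (l j)) + ev i τ') + cv (c.κ a (!σ)) := by
          simp only [cv_add]; abel
        rw [e4, e5, hper, hper l (bp i + cv (ev i τ))] at h
        simp only [D, riemDist_translate G hGper] at h ⊢
        linarith
      het := fun l i j hij η hη => by
        obtain ⟨a, σ, e1, e2, e3, hcal⟩ := c.het l i j hij
        obtain ⟨τ, τ', h⟩ := hzc l a σ hcal η hη
        rw [e1, e2, e3] at h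
        refine ⟨τ, τ', ?_⟩
        unfold df at h ⊢
        have e4 : bp i + cv (c.κ a (!σ) + ev i τ) = bp i + cv (ev i τ) + cv (c.κ a (!σ)) := by
          simp only [cv_add]; abel
        have e5 : bp j + cv (c.κ a (!σ) + ev j τ') = bp j + cv (ev j τ') + cv (c.κ a (!σ)) := by
          simp only [cv_add]; abel
        rw [e4, e5, hper, hper l (bp i + cv (ev i τ))] at h
        simp only [D, riemDist_translate G hGper] at h ⊢
        linarith
      cal := fun l f hf hcal => by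
        have hcont : Continuous f := by
          refine (LipschitzWith.of_dist_le' (K := m⁻¹) fun s t => ?_).continuous
          rw [dist_eq_norm, Real.dist_eq, ← hf t s, inv_mul_eq_div, le_div_iff₀ hm, mul_comm]
          exact hlower _ _
        have hp : ∀ s t, |t - s| ≤ M * ‖f t - f s‖ := fun s t => by
          rw [← hf s t]; exact hupper _ _
        refine c.range_eq hcont (fun s t hst => ?_) (fun t => by simpa using hp 0 t) hM fun t => ?_
        · have := hp s t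
          rw [hst, sub_self, norm_zero, mul_zero, abs_nonpos_iff, sub_eq_zero] at this
          exact this.symm
        · by_contra hK
          obtain ⟨g, hg, hgG, hg1, hg2⟩ := exists_perturb hG.continuous (hu l)
            (fun y v => (hGc y).2.2.1 l v) (x := f t) (by
              filter_upwards [c.loc_off hK] with y hy using (hGc y).2.2.2.1 hy l)
          have h1 := hp t (t - M)
          rw [sub_sub_cancel_left, abs_neg, abs_of_pos hM] at h1
          have h2 := hg2 (f (t - M)) (by nlinarith)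
          have h3 := hlip' g hg hgG (f (t - M)) (f t)
          have h4 := hcal (t - M) t
          rw [hf, sub_sub_cancel, abs_of_pos hM] at h3
          linarith
      acc := fun b => by
        rcases b with a | i
        · refine ⟨c.typ a false, fun η hη τ => ?_⟩
          obtain ⟨n, r, hr, r', hr', -, -, h1, h2⟩ := c.approach a false
            (Q := fun _ => True) (Eventually.of_forall fun _ => trivial) hη τ
          exact ⟨_, _, ⟨r, hr, rfl⟩, _, ⟨r', hr', rfl⟩, h1, h2⟩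
        · refine ⟨i, fun η hη τ => ⟨0, bp i, ⟨?_, ?_⟩, bp i + cv (ev i τ), ⟨?_, ?_⟩, ?_, ?_⟩⟩
          · simp [bp, fin3_ne3]
          · simp [bp]
          · simp [bp, ev, fin3_ne1, fin3_ne3]
          · simp [bp, ev, fin3_ne2]
          · simpa using hη
          · simpa using hη }
  obtain ⟨S, hS, hSf⟩ := hD.finite_lines
  refine ⟨G, hG, fun x => (hGc x).1, hpos, hGper, S, hS, fun f hf => hSf f fun s t => ?_⟩
  simp only [D, hf, ENNReal.toReal_ofReal (abs_nonneg _)]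

end Chan

end Pool.Agent.MP_4d76c1_gt

end
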